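import Pool.Agent.U597.ID.Mult

/-!
# MP_5168f5_an: the Kakeya maximal functions of bounded functions at fixed levels, in high dimensions

The known estimates `|{f*_δ > l}| ≤ C δ ^ (-(c - 1) (n - 1)) l ^ (-c p) ‖f‖_p ^ (c p)`,
`p = 1 + (n - 1) / c`, have `c > 1.67513 - 0.46 / (n - 1)`, about.  For bounded functions and levels
`l = ε ‖f‖_∞` they hold with `c = 1.669587`, the exponent of the Minkowski dimension of Kakeya
sets.
-/

set_option autoImplicit false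

open MeasureTheory
open scoped ENNReal

namespace Pool.Agent.Results.MP_5168f5_an.FixedLevels

/-- The closed cylinder of length `1` and radius `δ` with centre `a` and axis direction `e`. -/
def tube {n : ℕ} (δ : ℝ) (a e : EuclideanSpace ℝ (Fin n)) : Set (EuclideanSpace ℝ (Fin n)) :=
  {y | |inner ℝ (y - a) e| ≤ 1 / 2 ∧ ‖(y - a) - (inner ℝ (y - a) e) • e‖ ≤ δ}

/-- The Kakeya maximal function. -/
noncomputable def kakeyaMax {n : ℕ} (δ : ℝ) (f : EuclideanSpace ℝ (Fin n) → ℝ)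
    (e : EuclideanSpace ℝ (Fin n)) : ℝ≥0∞ :=
  ⨆ a : EuclideanSpace ℝ (Fin n), (volume (tube δ a e))⁻¹ * ∫⁻ y in tube δ a e, ‖f y‖ₑ

/-- Surface measure of the unit sphere. -/
noncomputable abbrev surf (n : ℕ) : Measure (Metric.sphere (0 : EuclideanSpace ℝ (Fin n)) 1) :=
  (volume : Measure (EuclideanSpace ℝ (Fin n))).toSphere

/-- The multiplicity function of a finite family of tubes. -/
noncomputable def mult {n : ℕ} {ι : Type} [Fintype ι] (δ : ℝ) (a e : ι → EuclideanSpace ℝ (Fin n))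
    (x : EuclideanSpace ℝ (Fin n)) : ℝ≥0∞ :=
  ∑ i, (tube δ (a i) (e i)).indicator (fun _ => (1 : ℝ≥0∞)) x

/-- For `n ≥ 1`, `c = 1.669587` and every `ε > 0` there is `C` such that for all `0 < δ < 1`:
(1) for all measurable `f` with `|f| ≤ B` almost everywhere, `B > 0`:
`|{f*_δ > ε B}| ≤ C δ ^ (-(c - 1) (n - 1)) |{|f| > ε B / 2}| ^ c`, and
`‖f*_δ‖_c ^ c ≤ ε B ^ c + C δ ^ (-(c - 1) (n - 1)) ‖f‖_1 ^ c`;
(2) for every finite family of `K` tubes with `δ`-separated directions, at most the proportion `ε` of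
the mass of the multiplicity function is at points of multiplicity more than `C K ^ (1 - 1 / c)`. -/
theorem result (n : ℕ) (hn : 1 ≤ n) (c : ℝ) (hc : c = 1.669587) (ε : ℝ) (hε : 0 < ε) :
    ∃ C : ℝ, 0 < C ∧ ∀ δ : ℝ, 0 < δ → δ < 1 →
      (∀ (f : EuclideanSpace ℝ (Fin n) → ℝ) (B : ℝ), AEMeasurable f volume → 0 < B →
      (∀ᵐ y, |f y| ≤ B) →
      (surf n {e | ENNReal.ofReal (ε * B) < kakeyaMax δ f e} ≤
        ENNReal.ofReal (C * δ ^ (-((c - 1) * ((n : ℝ) - 1)))) *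
          (volume {y | ε * B / 2 < |f y|}) ^ c) ∧
      (∫⁻ e, kakeyaMax δ f e ^ c ∂(surf n) ≤ ENNReal.ofReal (ε * B ^ c) +
        ENNReal.ofReal (C * δ ^ (-((c - 1) * ((n : ℝ) - 1)))) * (∫⁻ y, ‖f y‖ₑ) ^ c)) ∧
      (∀ (ι : Type) [Fintype ι] (a e : ι → EuclideanSpace ℝ (Fin n)), (∀ i, ‖e i‖ = 1) →
      (∀ i j, i ≠ j → δ ≤ ‖e i - e j‖) →
      ∫⁻ x in {x | ENNReal.ofReal (C * (Fintype.card ι : ℝ) ^ (1 - 1 / c)) < mult δ a e x},
        mult δ a e x ≤ ENNReal.ofReal ε * ∫⁻ x, mult δ a e x) := by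
  obtain ⟨d, rfl⟩ : ∃ d, n = d + 1 := ⟨n - 1, by omega⟩
  have e1 : (((d + 1 : ℕ) : ℝ) - 1) = d := by push_cast; ring
  have e2 : (1.669587 : ℝ) = 1669587 / 1000000 := by norm_num
  have hc1 : 1 ≤ c := by rw [hc]; norm_num
  have hcnt : Pool.Agent.U597.ID.Cnt d c := by
    rw [hc, e2]
    exact Pool.Agent.U597.ID.cnt_chain d
  obtain ⟨C1, hC1, h1⟩ := Pool.Agent.U597.ID.level_fun d hc1 hcnt ε hε
  obtain ⟨C2, hC2, h2⟩ := Pool.Agent.U597.ID.eps_max d hc1 hcnt ε hε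
  obtain ⟨C3, hC3, h3⟩ := Pool.Agent.U597.ID.mult d hc1 hcnt ε hε
  refine ⟨C1 + C2 + C3, by positivity, ?_⟩
  intro δ hδ hδ1
  constructor
  · intro f B hf hB hfB
    rw [e1]
    have hfB' : ∀ᵐ y, ‖f y‖ₑ ≤ ENNReal.ofReal B := by
      filter_upwards [hfB] with y hy
      rw [← ofReal_norm, Real.norm_eq_abs]
      exact ENNReal.ofReal_le_ofReal hy
    have hpow : 0 < δ ^ (-((c - 1) * (d : ℝ))) := Real.rpow_pos_of_pos hδ _
    have e3 : {y | ε * B / 2 < |f y|} = {y | ENNReal.ofReal (ε * B / 2) < ‖f y‖ₑ} := by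
      ext y
      simp only [Set.mem_ofPred_eq]
      rw [← ofReal_norm, Real.norm_eq_abs, ENNReal.ofReal_lt_ofReal_iff_of_nonneg
        (by positivity)]
    refine ⟨?_, ?_⟩
    · rw [e3]
      refine (h1 δ hδ hδ1 (fun y => ‖f y‖ₑ) B hf.enorm hB hfB').trans ?_
      gcongr
      linarith
    · refine (h2 δ hδ hδ1 (fun y => ‖f y‖ₑ) B hf.enorm hB hfB').trans ?_
      gcongr
      linarith
  · intro ι _ a e he hsep
    refine le_trans (lintegral_mono_set ?_) (h3 δ hδ hδ1.le ι a e he hsep)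
    intro x hx
    refine lt_of_le_of_lt (ENNReal.ofReal_le_ofReal ?_) hx
    have : 0 ≤ (Fintype.card ι : ℝ) ^ (1 - 1 / c) := by positivity
    nlinarith

end Pool.Agent.Results.MP_5168f5_an.FixedLevels
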