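import Pool.Agent.U530.KX.Defs
import Pool.Agent.U530.KX.Quant
import Pool.Agent.U530.PB.Avg
set_option autoImplicit false

/-!
# The Kakeya maximal conjecture: where the factor `δ^(-ε)` is needed

Let `n ≥ 3` and let `f*_δ` be the Kakeya maximal function.  For `1 < p < n` the estimates without a
loss are

* `‖f*_δ‖_p ≤ C_p δ^(-(n/p - 1)) ‖f‖_p`,
* `f ↦ f*_δ` maps `L^p` to weak `L^((n-1)p')` with norm at most `C_p δ^(-(n/p - 1))`,
* `‖∑ 1_T‖_q ≤ C_q δ^((n-1)/q) (#T)^(1 - 1/(q(n-1)))`, `q = p'`, for `δ`-tubes with `δ`-separated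
  orientations.

1. They hold for all `1 < p < (n+2)/2`, in every dimension `n ≥ 3`.
2. If the estimate of Q1 holds with ONE loss, `‖f*_δ‖_n ≤ C δ^(-γ) ‖f‖_n` for some `γ ≥ 0`, then they
   hold for all `1 < p < n (1 + 7nγ) / (1 + 7n²γ)`.  It is enough to know the estimate for the
   averages over the sphere and for characteristic functions: `∫ (1_A)*_δ dσ ≤ C δ^(-γ) |A|^(1/n)`.
3. There is a threshold `p₀`, `(n+2)/2 ≤ p₀ ≤ n`: the estimates hold without a loss for `p < p₀`, with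
   arbitrarily small power losses at `p₀`, and if `p₀ < n`, then beyond `p₀` a power of `1/δ`, with an
   explicit exponent, is lost in the tube inequalities for `p₀ < p ≤ n`, in the strong type
   estimates for all `p` near `n` and in the averaged estimate for sets.
4. Q1 in dimension `n` is equivalent to `p₀ = n`, to the averaged estimate for sets with arbitrarily
   small power losses, and to each of the three families of estimates without a loss for all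
   `1 < p < n`.
-/

open MeasureTheory Set Metric
open scoped ENNReal NNReal

namespace Pool.Agent.Results.MP_5168f5_an.NoLossThreshold

/-- `ℝⁿ`. -/
abbrev E (n : ℕ) := EuclideanSpace ℝ (Fin n)

/-- The closed cylinder of length `1` and radius `δ` with centre `a` and axis direction `e`. -/
def tube {n : ℕ} (δ : ℝ) (a e : E n) : Set (E n) :=
  {y | |inner ℝ (y - a) e| ≤ 1 / 2 ∧ ‖(y - a) - (inner ℝ (y - a) e) • e‖ ≤ δ}

/-- The Kakeya maximal function. -/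
noncomputable def kakeyaMax {n : ℕ} (δ : ℝ) (f : E n → ℝ) (e : E n) : ℝ≥0∞ :=
  ⨆ a : E n, (volume (tube δ a e))⁻¹ * ∫⁻ y in tube δ a e, ‖f y‖ₑ

/-- Surface measure of the unit sphere. -/
noncomputable abbrev surf (n : ℕ) : Measure (sphere (0 : E n) 1) :=
  (volume : Measure (E n)).toSphere

/-- The norm of `f` in `L^p(ℝⁿ)`. -/
noncomputable def lpNorm {n : ℕ} (p : ℝ) (f : E n → ℝ) : ℝ≥0∞ :=
  (∫⁻ y, ‖f y‖ₑ ^ p) ^ (1 / p)

/-- The maximal estimate `‖f*_δ‖_{L^p(S^(n-1))} ≤ C δ^(-γ) ‖f‖_{L^p(ℝⁿ)}`, for all `0 < δ < 1` and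
all `f ∈ L^p(ℝⁿ)`. -/
def Strong (n : ℕ) (p γ C : ℝ) : Prop :=
  ∀ δ : ℝ, 0 < δ → δ < 1 → ∀ f : E n → ℝ, MemLp f (ENNReal.ofReal p) volume →
    (∫⁻ e, kakeyaMax δ f e ^ p ∂surf n) ^ (1 / p) ≤ ENNReal.ofReal (C * δ ^ (-γ)) * lpNorm p f

/-- The weak type estimate from `L^p` to `L^((n-1)p')`, `p' = p / (p - 1)`, without a loss:
`|{e : f*_δ(e) > l}| ≤ (C δ^(-(n/p - 1)) ‖f‖_p / l)^((n-1)p')`, for all `0 < δ < 1`, all
`f ∈ L^p(ℝⁿ)` and all `l > 0`. -/
def Weak (n : ℕ) (p C : ℝ) : Prop :=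
  ∀ δ : ℝ, 0 < δ → δ < 1 → ∀ f : E n → ℝ, MemLp f (ENNReal.ofReal p) volume →
    ∀ l : ℝ, 0 < l → surf n {e | ENNReal.ofReal l < kakeyaMax δ f e} ≤
      (ENNReal.ofReal (C * δ ^ (-((n : ℝ) / p - 1)) / l) * lpNorm p f) ^
        (((n : ℝ) - 1) * (p / (p - 1)))

/-- The tube inequality at the exponent `q` with the factor `C δ^(-γ)`:
`‖∑_T 1_T‖_q ≤ C δ^(-γ) δ^((n-1)/q) (#T)^(1 - 1/(q(n-1)))`, for all `0 < δ < 1` and all finite
families of `δ`-tubes with `δ`-separated orientations. -/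
def Tubes (n : ℕ) (q γ C : ℝ) : Prop :=
  ∀ δ : ℝ, 0 < δ → δ < 1 → ∀ (ι : Type) [Fintype ι] (a e : ι → E n), (∀ i, ‖e i‖ = 1) →
    (∀ i j, i ≠ j → δ ≤ ‖e i - e j‖) →
    (∫⁻ x, (∑ i, (tube δ (a i) (e i)).indicator (fun _ => (1 : ℝ≥0∞)) x) ^ q) ^ (1 / q) ≤
      ENNReal.ofReal (C * δ ^ (-γ) * δ ^ (((n : ℝ) - 1) / q) *
        (Fintype.card ι : ℝ) ^ (1 - 1 / (q * ((n : ℝ) - 1))))

/-- The averaged estimate for sets with the factor `C δ^(-γ)`:
`∫ (1_A)*_δ dσ ≤ C δ^(-γ) |A|^(1/n)`, the integral over the unit sphere, for all `0 < δ < 1` and all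
measurable sets `A` of finite measure. -/
def Averages (n : ℕ) (γ C : ℝ) : Prop :=
  ∀ δ : ℝ, 0 < δ → δ < 1 → ∀ A : Set (E n), MeasurableSet A → volume A ≠ ∞ →
    ∫⁻ e, kakeyaMax δ (A.indicator 1) e ∂surf n ≤
      ENNReal.ofReal (C * δ ^ (-γ)) * volume A ^ (1 / (n : ℝ))

/-- The three estimates without a loss at the exponent `p`: the strong type estimate, the
off-diagonal weak type estimate and the tube inequality at the dual exponent. -/
def NoLoss (n : ℕ) (p : ℝ) : Prop :=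
  (∃ C : ℝ, 0 < C ∧ Strong n p ((n : ℝ) / p - 1) C) ∧ (∃ C : ℝ, 0 < C ∧ Weak n p C) ∧
    ∃ C : ℝ, 0 < C ∧ Tubes n (p / (p - 1)) 0 C

section proofs

open Pool.Agent.Y254 (mult)
open Pool.Agent.W46.HM (kmax)
open Pool.Agent.Y244.HM (WeakP StrongP)
open Pool.Agent.Y244.WR (TubeQ weakQ)
open Pool.Agent.Y254.EL (KM EuL EuF sg crit_of_sub euL_of_KM euF_of_euL euL_of_euF dual_small
  triv_bound kmax_pow card_dirs)
open Pool.Agent.Y254 (Cv Cv_pos)
open Pool.Agent.U530.KX (root_le pow_le of_memLp kmax_congr real_rep euF_of_euL_quant)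
open Pool.Agent.U530.PB (AvgS)

variable {d : ℕ}

theorem km_of_strong {ε C : ℝ} (hε : 0 < ε) (hC : 0 < C)
    (h : Strong (d + 1) ((d : ℝ) + 1) (ε / (d + 1)) C) :
    KM d ε (C ^ ((d : ℝ) + 1)) := by
  have hd1 : (0 : ℝ) < (d : ℝ) + 1 := by positivity
  intro δ hδ hδ1 f hf hft
  have hK : 0 < C * δ ^ (-(ε / ((d : ℝ) + 1))) := by positivity
  have e1 : C ^ ((d : ℝ) + 1) * δ ^ (-ε) = (C * δ ^ (-(ε / ((d : ℝ) + 1)))) ^ ((d : ℝ) + 1) := by
    rw [Real.mul_rpow hC.le (by positivity), ← Real.rpow_mul hδ.le]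
    congr 2
    field_simp
  rw [e1]
  refine of_memLp hd1 (by positivity) (fun g hg => ?_) f hf.aemeasurable hft
  exact pow_le hd1 hK.le (h δ hδ hδ1 g hg)

theorem strong_of_km {p γ K : ℝ} (hp : 0 < p) (hK : 0 < K)
    (h : ∀ δ : ℝ, 0 < δ → δ < 1 → ∀ f : E (d + 1) → ℝ≥0∞, AEMeasurable f volume →
      ∫⁻ e, kmax δ f (e : E (d + 1)) ^ p ∂(sg d) ≤
        ENNReal.ofReal (K * δ ^ (-(γ * p))) * ∫⁻ y, f y ^ p) :
    Strong (d + 1) p γ (K ^ (1 / p)) := by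
  intro δ hδ hδ1 f hf
  have h1 := root_le hp (by positivity) (h δ hδ hδ1 (fun y => ‖f y‖ₑ)
    hf.1.aemeasurable.enorm)
  have e1 : (K * δ ^ (-(γ * p))) ^ (1 / p) = K ^ (1 / p) * δ ^ (-γ) := by
    rw [Real.mul_rpow hK.le (by positivity), ← Real.rpow_mul hδ.le]
    congr 2
    field_simp
  rw [e1] at h1
  exact h1

theorem tubes_of_int {q γ K : ℝ} (hd : 1 ≤ d) (hq : 0 < q) (hK : 0 < K)
    (h : ∀ δ : ℝ, 0 < δ → δ < 1 → ∀ (ι : Type) [Fintype ι] (a e : ι → E (d + 1)),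
      (∀ i, ‖e i‖ = 1) → (∀ i j, i ≠ j → δ ≤ ‖e i - e j‖) →
      ∫⁻ x, mult (fun i => Pool.Agent.W46.KK.tube δ (a i) (e i)) x ^ q ≤
        ENNReal.ofReal (K * (δ ^ (-(γ * q)) *
          (δ ^ d * (Fintype.card ι : ℝ) ^ (q - 1 / (d : ℝ)))))) :
    Tubes (d + 1) q γ (K ^ (1 / q)) := by
  have hd0 : (0 : ℝ) < d := by exact_mod_cast hd
  intro δ hδ hδ1 ι _ a e he hsep
  have h1 := ENNReal.rpow_le_rpow (h δ hδ hδ1 ι a e he hsep) (by positivity : 0 ≤ 1 / q)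
  have hN : (0 : ℝ) ≤ Fintype.card ι := Nat.cast_nonneg _
  have e1 : (K * (δ ^ (-(γ * q)) * (δ ^ d * (Fintype.card ι : ℝ) ^ (q - 1 / (d : ℝ))))) ^ (1 / q) =
      K ^ (1 / q) * δ ^ (-γ) * δ ^ ((((d + 1 : ℕ) : ℝ) - 1) / q) *
        (Fintype.card ι : ℝ) ^ (1 - 1 / (q * (((d + 1 : ℕ) : ℝ) - 1))) := by
    have e2 : (((d + 1 : ℕ) : ℝ) - 1) = d := by push_cast; ring
    rw [e2, Real.mul_rpow hK.le (by positivity), Real.mul_rpow (by positivity) (by positivity),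
      Real.mul_rpow (by positivity) (by positivity), ← Real.rpow_mul hδ.le, ← Real.rpow_mul hN,
      ← Real.rpow_natCast, ← Real.rpow_mul hδ.le]
    have e3 : -(γ * q) * (1 / q) = -γ := by field_simp
    have e4 : (d : ℝ) * (1 / q) = d / q := by ring
    have e5 : (q - 1 / (d : ℝ)) * (1 / q) = 1 - 1 / (q * d) := by field_simp
    rw [e3, e4, e5]
    ring
  rw [ENNReal.ofReal_rpow_of_nonneg (by positivity) (by positivity), e1] at h1
  exact h1

theorem int_of_tubes {q γ C : ℝ} (hd : 1 ≤ d) (hq : 0 < q) (hC : 0 < C)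
    (h : Tubes (d + 1) q γ C) (δ : ℝ) (hδ : 0 < δ) (hδ1 : δ < 1) (ι : Type) [Fintype ι]
    (a e : ι → E (d + 1)) (he : ∀ i, ‖e i‖ = 1) (hsep : ∀ i j, i ≠ j → δ ≤ ‖e i - e j‖) :
    ∫⁻ x, mult (fun i => Pool.Agent.W46.KK.tube δ (a i) (e i)) x ^ q ≤
      ENNReal.ofReal (C ^ q * (δ ^ (-(γ * q)) *
        (δ ^ d * (Fintype.card ι : ℝ) ^ (q - 1 / (d : ℝ))))) := by
  have hd0 : (0 : ℝ) < d := by exact_mod_cast hd
  have h1 := ENNReal.rpow_le_rpow (h δ hδ hδ1 ι a e he hsep) hq.le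
  have hN : (0 : ℝ) ≤ Fintype.card ι := Nat.cast_nonneg _
  rw [← ENNReal.rpow_mul, one_div, inv_mul_cancel₀ hq.ne', ENNReal.rpow_one,
    ENNReal.ofReal_rpow_of_nonneg (by positivity) hq.le] at h1
  have e1 : (C * δ ^ (-γ) * δ ^ ((((d + 1 : ℕ) : ℝ) - 1) / q) *
        (Fintype.card ι : ℝ) ^ (1 - 1 / (q * (((d + 1 : ℕ) : ℝ) - 1)))) ^ q =
      C ^ q * (δ ^ (-(γ * q)) * (δ ^ d * (Fintype.card ι : ℝ) ^ (q - 1 / (d : ℝ)))) := by
    have e2 : (((d + 1 : ℕ) : ℝ) - 1) = d := by push_cast; ring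
    rw [e2, Real.mul_rpow (by positivity) (by positivity),
      Real.mul_rpow (by positivity) (by positivity),
      Real.mul_rpow hC.le (by positivity), ← Real.rpow_mul hδ.le, ← Real.rpow_mul hδ.le,
      ← Real.rpow_mul hN]
    have e3 : (d : ℝ) / q * q = d := by field_simp
    have e5 : (1 - 1 / (q * (d : ℝ))) * q = q - 1 / d := by field_simp
    rw [e3, e5, Real.rpow_natCast, neg_mul]
    ring
  rw [e1] at h1
  exact h1

theorem weak_of_weakP {p : ℝ} (hd : 1 ≤ d) (hp1 : 1 < p) (h : WeakP d ((d : ℝ) / (p - 1))) :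
    ∃ C : ℝ, 0 < C ∧ Weak (d + 1) p C := by
  have hd0 : (0 : ℝ) < d := by exact_mod_cast hd
  have hp10 : 0 < p - 1 := by linarith
  have hp0 : 0 < p := by linarith
  obtain ⟨K, hK, h⟩ := h
  set c : ℝ := (d : ℝ) / (p - 1) with hc
  have hc0 : 0 < c := by positivity
  have hpc : 1 + (d : ℝ) / c = p := by rw [hc]; field_simp; ring
  set Q : ℝ := (d : ℝ) * (p / (p - 1)) with hQ
  have hQ0 : 0 < Q := by positivity
  have hQc : Q = p * c := by rw [hQ, hc]; ring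
  have hQdc : Q = d + c := by rw [hQ, hc]; field_simp; ring
  refine ⟨K ^ (1 / Q), by positivity, ?_⟩
  intro δ hδ hδ1 f hf l hl
  have h1 := h δ hδ hδ1 (fun y => ‖f y‖ₑ) hf.1.aemeasurable.enorm l hl
  rw [hpc] at h1
  refine h1.trans (le_of_eq ?_)
  have e2 : (((d + 1 : ℕ) : ℝ) - 1) = d := by push_cast; ring
  rw [e2, ← hQ, ENNReal.mul_rpow_of_nonneg _ _ hQ0.le,
    ENNReal.ofReal_rpow_of_nonneg (by positivity) hQ0.le]
  congr 1
  · congr 1
    rw [Real.div_rpow (by positivity) hl.le, Real.mul_rpow (by positivity) (by positivity),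
      ← Real.rpow_mul hK.le, ← Real.rpow_mul hδ.le, one_div, inv_mul_cancel₀ hQ0.ne',
      Real.rpow_one, Real.rpow_neg hl.le, ← hQdc, div_eq_mul_inv]
    congr 3
    rw [hQc, hc]
    push_cast
    field_simp
    ring
  · unfold lpNorm
    rw [← ENNReal.rpow_mul]
    congr 1
    rw [hQc]
    field_simp

theorem weakP_of_weak {p C : ℝ} (hd : 1 ≤ d) (hp1 : 1 < p) (hC : 0 < C)
    (h : Weak (d + 1) p C) : WeakP d ((d : ℝ) / (p - 1)) := by
  have hd0 : (0 : ℝ) < d := by exact_mod_cast hd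
  have hp10 : 0 < p - 1 := by linarith
  have hp0 : 0 < p := by linarith
  set c : ℝ := (d : ℝ) / (p - 1) with hc
  have hc0 : 0 < c := by positivity
  have hpc : 1 + (d : ℝ) / c = p := by rw [hc]; field_simp; ring
  set Q : ℝ := (d : ℝ) * (p / (p - 1)) with hQ
  have hQ0 : 0 < Q := by positivity
  have hQc : Q = p * c := by rw [hQ, hc]; ring
  have hQdc : Q = d + c := by rw [hQ, hc]; field_simp; ring
  refine ⟨C ^ Q, by positivity, ?_⟩
  intro δ hδ hδ1 f hf l hl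
  rw [hpc]
  by_cases hI : ∫⁻ y, f y ^ p = ∞
  · rw [hI, ENNReal.top_rpow_of_pos hc0, ENNReal.mul_top (by
      rw [ne_eq, ENNReal.ofReal_eq_zero, not_le]; positivity)]
    exact le_top
  obtain ⟨hm, hae⟩ := real_rep hp0 hf hI
  have h1 := h δ hδ hδ1 _ hm l hl
  have e0 : ∀ e : E (d + 1), kakeyaMax δ (fun y => (f y).toReal) e = kmax δ f e :=
    fun e => kmax_congr hae e
  simp only [e0] at h1
  refine h1.trans (le_of_eq ?_)
  have e2 : (((d + 1 : ℕ) : ℝ) - 1) = d := by push_cast; ring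
  rw [e2, ← hQ, ENNReal.mul_rpow_of_nonneg _ _ hQ0.le,
    ENNReal.ofReal_rpow_of_nonneg (by positivity) hQ0.le]
  congr 1
  · congr 1
    rw [Real.div_rpow (by positivity) hl.le, Real.mul_rpow (by positivity) (by positivity),
      ← Real.rpow_mul hδ.le, Real.rpow_neg hl.le, ← hQdc, div_eq_mul_inv]
    congr 3
    rw [hQc, hc]
    push_cast
    field_simp
    ring
  · unfold lpNorm
    rw [← ENNReal.rpow_mul]
    have e3 : ∫⁻ y, ‖(f y).toReal‖ₑ ^ p = ∫⁻ y, f y ^ p := by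
      refine lintegral_congr_ae ?_
      filter_upwards [hae] with y hy
      rw [hy]
    rw [e3]
    congr 1
    rw [hQc]
    field_simp

theorem tubeQ_of_tubes {c C : ℝ} (hd : 1 ≤ d) (hc : 0 < c) (hC : 0 < C)
    (h : Tubes (d + 1) (1 + c / d) 0 C) : TubeQ d (1 + c / d) := by
  have hd0 : (0 : ℝ) < d := by exact_mod_cast hd
  have hq : 0 < 1 + c / (d : ℝ) := by positivity
  refine ⟨C ^ (1 + c / (d : ℝ)), by positivity, ?_⟩
  intro δ hδ hδ1 ι _ a e he hsep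
  have h2 := int_of_tubes hd hq hC h δ hδ hδ1 ι a e he hsep
  have e1 : C ^ (1 + c / (d : ℝ)) * δ ^ (d : ℝ) *
        (Fintype.card ι : ℝ) ^ (1 + c / (d : ℝ) - 1 / (d : ℝ)) =
      C ^ (1 + c / (d : ℝ)) * (δ ^ (-(0 * (1 + c / (d : ℝ)))) *
        (δ ^ d * (Fintype.card ι : ℝ) ^ (1 + c / (d : ℝ) - 1 / (d : ℝ)))) := by
    rw [Real.rpow_natCast, zero_mul, neg_zero, Real.rpow_zero]
    ring
  rw [e1]
  exact h2

theorem main (hd : 2 ≤ d) : List.TFAE [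
    ∀ ε : ℝ, 0 < ε → ∃ C : ℝ, 0 < C ∧ Strong (d + 1) ((d : ℝ) + 1) ε C,
    ∀ ε : ℝ, 0 < ε → ∃ C : ℝ, 0 < C ∧ Tubes (d + 1) (1 + 1 / (d : ℝ)) ε C,
    ∀ p : ℝ, 1 < p → p < (d : ℝ) + 1 →
      ∃ C : ℝ, 0 < C ∧ Strong (d + 1) p (((d : ℝ) + 1) / p - 1) C,
    ∀ p : ℝ, 1 < p → p < (d : ℝ) + 1 → ∃ C : ℝ, 0 < C ∧ Weak (d + 1) p C,
    ∀ q : ℝ, 1 + 1 / (d : ℝ) < q → ∃ C : ℝ, 0 < C ∧ Tubes (d + 1) q 0 C] := by
  have hdR : (2 : ℝ) ≤ d := by exact_mod_cast hd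
  have hd0 : (0 : ℝ) < d := by linarith
  have hd1 : 1 ≤ d := by omega
  have hinv : 0 < 1 / (d : ℝ) := by positivity
  tfae_have 1 → 2 := by
    intro h ε hε
    set q0 : ℝ := 1 + 1 / (d : ℝ) with hq0
    have hq00 : 0 < q0 := by linarith
    obtain ⟨C, hC, hE⟩ := euL_of_KM hd1 (fun η hη => by
      obtain ⟨C, hC, hS⟩ := h (η / (d + 1)) (by positivity)
      exact ⟨C ^ ((d : ℝ) + 1), by positivity, km_of_strong hη hC hS⟩) (ε * q0) (by positivity)
    refine ⟨(C + 1) ^ (1 / q0), by positivity,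
      tubes_of_int hd1 hq00 (by positivity) ?_⟩
    intro δ hδ hδ1 ι _ a e he hsep
    refine (hE δ hδ hδ1 ι a e he hsep).trans (ENNReal.ofReal_le_ofReal ?_)
    gcongr
    linarith
  tfae_have 2 → 5 := by
    intro h q hq
    have hq0 : 0 < q := by linarith
    obtain ⟨C, hC, hF⟩ := euF_of_euL hd (le_refl (1 + 1 / (d : ℝ))) hq (fun η hη => by
      obtain ⟨C, hC, hT⟩ := h (η / (1 + 1 / (d : ℝ))) (by positivity)
      refine ⟨C ^ (1 + 1 / (d : ℝ)), by positivity, ?_⟩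
      intro δ hδ hδ1 ι _ a e he hsep
      have h1 := int_of_tubes hd1 (by positivity) hC hT δ hδ hδ1 ι a e he hsep
      have e1 : η / (1 + 1 / (d : ℝ)) * (1 + 1 / (d : ℝ)) = η := by field_simp
      rw [e1] at h1
      exact h1)
    refine ⟨C ^ (1 / q), by positivity, tubes_of_int hd1 hq0 hC ?_⟩
    intro δ hδ hδ1 ι _ a e he hsep
    refine (hF δ hδ hδ1 ι a e he hsep).trans (le_of_eq ?_)
    rw [zero_mul, neg_zero, Real.rpow_zero, one_mul]
  tfae_have 5 → 4 := by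
    intro h p hp1 hpn
    have hp10 : 0 < p - 1 := by linarith
    have hc : 1 < (d : ℝ) / (p - 1) := by rw [lt_div_iff₀ hp10]; linarith
    obtain ⟨C, hC, hT⟩ := h (1 + (d : ℝ) / (p - 1) / d) (by
      have : 1 / (d : ℝ) < (d : ℝ) / (p - 1) / d := by gcongr
      linarith)
    exact weak_of_weakP hd1 hp1 (weakQ hd1 (by linarith)
      (tubeQ_of_tubes hd1 (by linarith) hC hT) Pool.Agent.W131.HM.CAP Pool.Agent.W131.HM.VOL)
  tfae_have 4 → 3 := by
    intro h p hp1 hpn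
    have hp10 : 0 < p - 1 := by linarith
    have hp0 : 0 < p := by linarith
    have hc : 1 < (d : ℝ) / (p - 1) := by rw [lt_div_iff₀ hp10]; linarith
    have hpc : 1 + (d : ℝ) / ((d : ℝ) / (p - 1)) = p := by field_simp; ring
    obtain ⟨C, hC, hW⟩ := h p hp1 hpn
    obtain ⟨K, hK, hS⟩ := Pool.Agent.Y244.HM.strongP hd1 hc (weakP_of_weak hd1 hp1 hC hW)
    rw [hpc] at hS
    refine ⟨K ^ (1 / p), by positivity, strong_of_km hp0 hK ?_⟩
    intro δ hδ hδ1 f hf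
    have e1 : -((((d : ℝ) + 1) / p - 1) * p) = -((d : ℝ) - (d : ℝ) / ((d : ℝ) / (p - 1))) := by
      field_simp
      ring
    rw [e1]
    exact hS δ hδ hδ1 f hf
  tfae_have 3 → 1 := by
    intro h ε hε
    set c : ℝ := 1 + ε with hc
    have hc1 : 1 < c := by linarith
    have hc0 : 0 < c := by linarith
    have hdc : (d : ℝ) / c < d := div_lt_self hd0 hc1
    have hdc0 : 0 < (d : ℝ) / c := by positivity
    set p : ℝ := 1 + (d : ℝ) / c with hp
    have hp0 : 0 < p := by positivity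
    obtain ⟨C, hC, hS⟩ := h p (by linarith) (by linarith)
    have hn0 : (0 : ℝ) < (d : ℝ) + 1 := by positivity
    refine ⟨(C ^ p) ^ (1 / ((d : ℝ) + 1)), by positivity, ?_⟩
    intro δ hδ hδ1 f hf
    have hKp : 0 < C * δ ^ (-(((d : ℝ) + 1) / p - 1)) := by positivity
    have e1 : (C * δ ^ (-(((d : ℝ) + 1) / p - 1))) ^ p =
        C ^ p * δ ^ (-((d : ℝ) - (d : ℝ) / c)) := by
      rw [Real.mul_rpow hC.le (by positivity), ← Real.rpow_mul hδ.le]
      have e3 : -(((d : ℝ) + 1) / p - 1) * p = -((d : ℝ) + 1 - p) := by field_simp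
      rw [e3, hp]
      congr 2
      ring
    have hsub : ∀ g : E (d + 1) → ℝ≥0∞, AEMeasurable g volume → (∀ x, g x ≠ ∞) →
        ∫⁻ e : sphere (0 : E (d + 1)) 1, kmax δ g e ^ (1 + (d : ℝ) / c) ∂(sg d) ≤
        ENNReal.ofReal (C ^ p * δ ^ (-((d : ℝ) - (d : ℝ) / c))) *
          ∫⁻ y, g y ^ (1 + (d : ℝ) / c) := by
      intro g hg hgt
      rw [← e1]
      refine of_memLp hp0 (by positivity) (fun g hg => ?_) g hg hgt
      exact pow_le hp0 hKp.le (hS δ hδ hδ1 g hg)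
    have h1 := crit_of_sub hc1 hd1 hδ hδ1 hsub (fun y => ‖f y‖ₑ) hf.1.aemeasurable.enorm
      (fun x => enorm_ne_top)
    have h2 := root_le hn0 (by positivity) h1
    refine h2.trans ?_
    unfold lpNorm
    gcongr
    rw [Real.mul_rpow (by positivity) (by positivity), ← Real.rpow_mul hδ.le]
    gcongr ?_ * ?_
    apply Real.rpow_le_rpow_of_exponent_ge hδ hδ1.le
    rw [neg_mul, neg_le_neg_iff, mul_one_div, div_le_iff₀ hn0]
    have h3 : (d : ℝ) - (d : ℝ) / c = d * ε / c := by rw [hc]; field_simp; ring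
    rw [h3, div_le_iff₀ hc0]
    have h4 : (d : ℝ) * ε ≤ ε * ((d : ℝ) + 1) := by nlinarith
    have h5 : ε * ((d : ℝ) + 1) ≤ ε * ((d : ℝ) + 1) * c := le_mul_of_one_le_right (by positivity) hc1.le
    linarith
  tfae_finish


theorem tubes_mono {n : ℕ} {q γ C C' : ℝ} (hCC : C ≤ C') (h : Tubes n q γ C) :
    Tubes n q γ C' := by
  intro δ hδ hδ1 ι _ a e he hsep
  refine (h δ hδ hδ1 ι a e he hsep).trans (ENNReal.ofReal_le_ofReal ?_)
  gcongr

theorem tubes_of_euF {q C : ℝ} (hd : 1 ≤ d) (hq : 0 < q) (hC : 0 < C) (h : EuF d q C) :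
    Tubes (d + 1) q 0 (C ^ (1 / q)) := by
  refine tubes_of_int hd hq hC ?_
  intro δ hδ hδ1 ι _ a e he hsep
  refine (h δ hδ hδ1 ι a e he hsep).trans (le_of_eq ?_)
  rw [zero_mul, neg_zero, Real.rpow_zero, one_mul]

theorem euL_of_tubes {q γ C : ℝ} (hd : 1 ≤ d) (hq : 0 < q) (h : Tubes (d + 1) q γ C) :
    ∃ K : ℝ, 0 ≤ K ∧ EuL d q (γ * q) K := by
  have h1 := tubes_mono (le_max_left C 1) h
  have hm : 0 < max C 1 := lt_of_lt_of_le one_pos (le_max_right _ _)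
  exact ⟨max C 1 ^ q, by positivity, fun δ hδ hδ1 ι _ a e he hsep =>
    int_of_tubes hd hq hm h1 δ hδ hδ1 ι a e he hsep⟩

/-- Quantitative removal of the loss. -/
theorem removal {q q' γ C : ℝ} (hd : 2 ≤ d) (hq : 1 + 1 / (d : ℝ) ≤ q) (hqq : q < q') (hγ : 0 ≤ γ)
    (hγq : 7 * ((d : ℝ) + 1) * (γ * q) < q' - q) (h : Tubes (d + 1) q γ C) :
    ∃ C : ℝ, 0 < C ∧ Tubes (d + 1) q' 0 C := by
  have hd0 : (0 : ℝ) < d := by exact_mod_cast (by omega : 0 < d)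
  have hinv : 0 < 1 / (d : ℝ) := by positivity
  have hq0 : 0 < q := by linarith
  obtain ⟨K, hK, hE⟩ := euL_of_tubes (by omega) hq0 h
  obtain ⟨C', hC', hF⟩ := euF_of_euL_quant hd hq hqq (by positivity) hγq hK hE
  exact ⟨_, by positivity, tubes_of_euF (by omega) (by linarith) hC' hF⟩


theorem strong_mono {n : ℕ} {p γ γ' C C' : ℝ} (hC : 0 ≤ C') (hCC : C ≤ C') (hγ : γ ≤ γ')
    (h : Strong n p γ C) : Strong n p γ' C' := by
  intro δ hδ hδ1 f hf
  refine (h δ hδ hδ1 f hf).trans ?_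
  gcongr ENNReal.ofReal ?_ * _
  have h1 : δ ^ (-γ) ≤ δ ^ (-γ') :=
    Real.rpow_le_rpow_of_exponent_ge hδ hδ1.le (by linarith)
  calc C * δ ^ (-γ) ≤ C' * δ ^ (-γ) := by gcongr
    _ ≤ C' * δ ^ (-γ') := by gcongr

/-- A larger exponent, by Jensen's inequality. -/
theorem strong_up {p P γ C : ℝ} (hp : 0 < p) (hpP : p < P) (hC : 0 < C)
    (h : Strong (d + 1) p γ C) : Strong (d + 1) P (γ * p / P) (C ^ (p / P)) := by
  have hP : 0 < P := by linarith
  set r : ℝ := P / p with hr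
  have hr1 : 1 < r := by rw [hr, lt_div_iff₀ hp]; linarith
  have hrp : r * p = P := by rw [hr]; field_simp
  intro δ hδ hδ1 f hf
  have hKp : 0 < C * δ ^ (-γ) := by positivity
  have h1 : ∫⁻ e : sphere (0 : E (d + 1)) 1, kmax δ (fun y => ‖f y‖ₑ) (e : E (d + 1)) ^ P ∂(sg d) ≤
      ENNReal.ofReal ((C * δ ^ (-γ)) ^ p) * ∫⁻ y, ‖f y‖ₑ ^ P := by
    have h2 : ∫⁻ e : sphere (0 : E (d + 1)) 1,
        kmax δ (fun y => ‖f y‖ₑ ^ r) (e : E (d + 1)) ^ p ∂(sg d) ≤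
        ENNReal.ofReal ((C * δ ^ (-γ)) ^ p) * ∫⁻ y, (‖f y‖ₑ ^ r) ^ p :=
      of_memLp hp (by positivity) (fun g hg => pow_le hp hKp.le (h δ hδ hδ1 g hg)) _
        (hf.1.aemeasurable.enorm.pow_const _)
        (fun x => ENNReal.rpow_ne_top_of_nonneg (by linarith) enorm_ne_top)
    calc ∫⁻ e : sphere (0 : E (d + 1)) 1, kmax δ (fun y => ‖f y‖ₑ) (e : E (d + 1)) ^ P ∂(sg d)
        ≤ ∫⁻ e : sphere (0 : E (d + 1)) 1,
          kmax δ (fun y => ‖f y‖ₑ ^ r) (e : E (d + 1)) ^ p ∂(sg d) := by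
          apply lintegral_mono
          intro e
          dsimp only
          rw [← hrp, ENNReal.rpow_mul]
          exact ENNReal.rpow_le_rpow (kmax_pow hδ hδ1 (by simp) _ hr1) hp.le
      _ ≤ _ := h2
      _ = _ := by
          congr 1
          refine lintegral_congr fun x => ?_
          rw [← ENNReal.rpow_mul, hrp]
  have h3 := root_le hP (by positivity) h1
  refine h3.trans (le_of_eq ?_)
  unfold lpNorm
  congr 2
  rw [← Real.rpow_mul hKp.le, Real.mul_rpow hC.le (by positivity), ← Real.rpow_mul hδ.le]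
  congr 2
  · field_simp
  · field_simp

/-- Duality at the critical exponent, for one loss. -/
theorem euL_of_strong {γ C : ℝ} (hd : 1 ≤ d) (hγ : 0 ≤ γ) (h : Strong (d + 1) ((d : ℝ) + 1) γ C) :
    ∃ K : ℝ, 0 ≤ K ∧ EuL d (1 + 1 / (d : ℝ)) (γ * ((d : ℝ) + 1) / d) K := by
  have hd0 : (0 : ℝ) < d := by exact_mod_cast hd
  have hd1 : (0 : ℝ) < (d : ℝ) + 1 := by positivity
  have hp0 : 0 < 1 / (d : ℝ) := by positivity
  have hCv := Cv_pos (d + 1)
  set ε : ℝ := γ * ((d : ℝ) + 1) / d with hε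
  have hε0 : 0 ≤ ε := by positivity
  have hm : 0 < max C 1 := lt_of_lt_of_le one_pos (le_max_right _ _)
  have h' : Strong (d + 1) ((d : ℝ) + 1) γ (max C 1) :=
    strong_mono hm.le (le_max_left _ _) le_rfl h
  have hK : KM d (γ * ((d : ℝ) + 1)) (max C 1 ^ ((d : ℝ) + 1)) := by
    intro δ hδ hδ1 f hf hft
    have hK : 0 < max C 1 * δ ^ (-γ) := by positivity
    have e1 : max C 1 ^ ((d : ℝ) + 1) * δ ^ (-(γ * ((d : ℝ) + 1))) =
        (max C 1 * δ ^ (-γ)) ^ ((d : ℝ) + 1) := by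
      rw [Real.mul_rpow hm.le (by positivity), ← Real.rpow_mul hδ.le]
      congr 2
      ring
    rw [e1]
    refine of_memLp hd1 (by positivity) (fun g hg => ?_) f hf.aemeasurable hft
    exact pow_le hd1 hK.le (h' δ hδ hδ1 g hg)
  obtain ⟨C', hC', hs⟩ := dual_small hd (by positivity) (by positivity) hK
  set K : ℝ := (20 * ((d : ℝ) + 1)) ^ (d + 1) with hKd
  refine ⟨C' + K ^ (1 / (d : ℝ)) * (Cv (d + 1) * 2), by positivity, ?_⟩
  intro δ hδ hδ1 ι _ a e he hsep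
  have e0 : 1 + 1 / (d : ℝ) - 1 / (d : ℝ) = 1 := by ring
  have hδε : 1 ≤ δ ^ (-ε) := Real.one_le_rpow_of_pos_of_le_one_of_nonpos hδ hδ1.le (by linarith)
  rw [e0, Real.rpow_one]
  have hN0 : (0 : ℝ) ≤ Fintype.card ι := Nat.cast_nonneg _
  rcases le_or_gt δ (1 / 5) with h5 | h5
  · refine (hs δ hδ h5 ι a e he hsep).trans (ENNReal.ofReal_le_ofReal ?_)
    rw [← hε]
    have h1 : 0 ≤ δ ^ (-ε) * (δ ^ d * (Fintype.card ι : ℝ)) := by positivity
    have h2 : 0 ≤ K ^ (1 / (d : ℝ)) * (Cv (d + 1) * 2) := by positivity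
    nlinarith
  · refine (triv_bound (q := 1 + 1 / (d : ℝ)) (by linarith) hδ hδ1 a e he).trans
      (ENNReal.ofReal_le_ofReal ?_)
    have hcard := card_dirs hδ hδ1 e he hsep
    have hcK : (Fintype.card ι : ℝ) ≤ K := by
      refine hcard.trans ?_
      rw [hKd]
      gcongr
      rw [div_le_iff₀ hδ]
      nlinarith
    have e1 : 1 + 1 / (d : ℝ) - 1 = 1 / d := by ring
    rw [e1]
    have h1 : (Fintype.card ι : ℝ) ^ (1 / (d : ℝ)) ≤ K ^ (1 / (d : ℝ)) := by gcongr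
    have h2 : 0 ≤ δ ^ d * (Fintype.card ι : ℝ) := by positivity
    calc (Fintype.card ι : ℝ) ^ (1 / (d : ℝ)) *
          ((Fintype.card ι : ℝ) * (Cv (d + 1) * 2 * δ ^ d))
        ≤ K ^ (1 / (d : ℝ)) * ((Fintype.card ι : ℝ) * (Cv (d + 1) * 2 * δ ^ d)) := by gcongr
      _ = (K ^ (1 / (d : ℝ)) * (Cv (d + 1) * 2)) * (1 * (δ ^ d * (Fintype.card ι : ℝ))) := by ring
      _ ≤ (C' + K ^ (1 / (d : ℝ)) * (Cv (d + 1) * 2)) *
          (δ ^ (-ε) * (δ ^ d * (Fintype.card ι : ℝ))) := by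
          gcongr
          linarith

/-- From the tube inequality without a loss to the maximal function. -/
theorem noLoss_of_tubes {p C : ℝ} (hd : 1 ≤ d) (hp1 : 1 < p) (hpn : p < (d : ℝ) + 1) (hC : 0 < C)
    (h : Tubes (d + 1) (p / (p - 1)) 0 C) : NoLoss (d + 1) p := by
  have hd0 : (0 : ℝ) < d := by exact_mod_cast hd
  have hp10 : 0 < p - 1 := by linarith
  have hp0 : 0 < p := by linarith
  have hc : 1 < (d : ℝ) / (p - 1) := by rw [lt_div_iff₀ hp10]; linarith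
  have hpc : 1 + (d : ℝ) / ((d : ℝ) / (p - 1)) = p := by field_simp; ring
  have hq : p / (p - 1) = 1 + (d : ℝ) / (p - 1) / d := by field_simp; ring
  have hT : TubeQ d (1 + (d : ℝ) / (p - 1) / d) :=
    tubeQ_of_tubes hd (by linarith) hC (by rw [← hq]; exact h)
  have hW := weakQ hd (by linarith) hT Pool.Agent.W131.HM.CAP Pool.Agent.W131.HM.VOL
  refine ⟨?_, weak_of_weakP hd hp1 hW, C, hC, h⟩
  obtain ⟨K, hK, hS⟩ := Pool.Agent.Y244.HM.strongP hd hc hW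
  rw [hpc] at hS
  refine ⟨K ^ (1 / p), by positivity, strong_of_km hp0 hK ?_⟩
  intro δ hδ hδ1 f hf
  have e1 : -((((d + 1 : ℕ) : ℝ) / p - 1) * p) = -((d : ℝ) - (d : ℝ) / ((d : ℝ) / (p - 1))) := by
    push_cast
    field_simp
    ring
  rw [e1]
  exact hS δ hδ hδ1 f hf

/-- The threshold for the tube inequalities. -/
theorem thresh (hd : 2 ≤ d) : ∃ q₀ : ℝ, 1 + 1 / (d : ℝ) ≤ q₀ ∧ q₀ ≤ 1 + 2 / ((d : ℝ) + 1) ∧
    (∀ q : ℝ, q₀ < q → ∃ C : ℝ, 0 < C ∧ Tubes (d + 1) q 0 C) ∧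
    (∀ ε : ℝ, 0 < ε → ∃ C : ℝ, 0 < C ∧ Tubes (d + 1) q₀ ε C) ∧
    (∀ q ε K : ℝ, 1 + 1 / (d : ℝ) ≤ q → q < q₀ → 0 ≤ ε → 7 * ((d : ℝ) + 1) * ε < q₀ - q →
      0 ≤ K → ¬ EuL d q ε K) ∧
    ((∀ q : ℝ, 1 + 1 / (d : ℝ) < q → ∃ C : ℝ, 0 < C ∧ Tubes (d + 1) q 0 C) → q₀ = 1 + 1 / d) ∧
    (∀ γ K : ℝ, 0 ≤ γ → 0 ≤ K → AvgS d γ K →
      q₀ ≤ (1 + 1 / (d : ℝ)) + 7 * ((d : ℝ) + 1) * (γ * (1 + 1 / (d : ℝ)))) := by
  have hdR : (2 : ℝ) ≤ d := by exact_mod_cast hd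
  have hd0 : (0 : ℝ) < d := by linarith
  have hinv : 0 < 1 / (d : ℝ) := by positivity
  have e2 : ((d + 1 : ℕ) : ℝ) = (d : ℝ) + 1 := by push_cast; ring
  set S : Set ℝ := {q | 1 + 1 / (d : ℝ) ≤ q ∧ ∃ C : ℝ, 0 < C ∧ Tubes (d + 1) q 0 C} with hS
  have hw : ∀ q : ℝ, 1 + 2 / ((d : ℝ) + 1) < q → q ∈ S := by
    intro q hq
    have h12 : 1 / (d : ℝ) ≤ 2 / ((d : ℝ) + 1) := by
      rw [div_le_div_iff₀ hd0 (by positivity)]
      linarith
    obtain ⟨A, hA, hF⟩ := Pool.Agent.Y254.wolff (n := d + 1) (by omega) (q := q) (by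
      rw [e2]; exact hq)
    refine ⟨by linarith, A ^ (1 / q), by positivity, tubes_of_euF (by omega) (by linarith) hA ?_⟩
    intro δ hδ hδ1 ι _ a e he hsep
    have h2 := hF δ hδ hδ1 a e he hsep
    have e3 : (((d + 1 : ℕ) : ℝ) - 1) = d := by push_cast; ring
    rw [e3, Nat.add_sub_cancel] at h2
    exact h2
  have hne : S.Nonempty := ⟨1 + 2 / ((d : ℝ) + 1) + 1, hw _ (by linarith)⟩
  have hbd : BddBelow S := ⟨1 + 1 / (d : ℝ), fun q hq => hq.1⟩
  have hlow : 1 + 1 / (d : ℝ) ≤ sInf S := le_csInf hne fun q hq => hq.1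
  have hup : sInf S ≤ 1 + 2 / ((d : ℝ) + 1) := by
    by_contra hcon
    rw [not_le] at hcon
    obtain ⟨x, hx1, hx2⟩ := exists_between hcon
    exact absurd (csInf_le hbd (hw x hx1)) (not_le.2 hx2)
  have h1 : ∀ q : ℝ, sInf S < q → ∃ C : ℝ, 0 < C ∧ Tubes (d + 1) q 0 C := by
    intro q hq
    obtain ⟨s, hs, hsq⟩ := exists_lt_of_csInf_lt hne hq
    obtain ⟨C, hC, hT⟩ := hs.2
    exact removal hd hs.1 hsq le_rfl (by simpa using hsq) hT
  refine ⟨sInf S, hlow, hup, h1, ?_, ?_, ?_, ?_⟩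
  · intro ε hε
    have hq0 : 0 < sInf S := by linarith
    obtain ⟨C, hC, hT⟩ := h1 (sInf S + ε * sInf S / (d + 1)) (by
      have : 0 < ε * sInf S / ((d : ℝ) + 1) := by positivity
      linarith)
    have hq1 : 0 < sInf S + ε * sInf S / ((d : ℝ) + 1) := by positivity
    obtain ⟨K, hK, hE⟩ :=
      euL_of_euF (d := d) hq0 (by positivity : 0 < ε * sInf S)
      (C := C ^ (sInf S + ε * sInf S / ((d : ℝ) + 1))) (by positivity) (by
        intro δ hδ hδ1 ι _ a e he hsep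
        have h2 := int_of_tubes (by omega) hq1 hC hT δ hδ hδ1 ι a e he hsep
        rw [zero_mul, neg_zero, Real.rpow_zero, one_mul] at h2
        exact h2)
    refine ⟨(K + 1) ^ (1 / sInf S), by positivity,
      tubes_of_int (by omega) hq0 (by positivity) ?_⟩
    intro δ hδ hδ1 ι _ a e he hsep
    refine (hE δ hδ hδ1 ι a e he hsep).trans (ENNReal.ofReal_le_ofReal ?_)
    gcongr
    linarith
  · intro q ε K hq hqS hε hεq hK hE
    have h4 : q + 7 * ((d : ℝ) + 1) * ε < sInf S := by linarith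
    obtain ⟨x, hx1, hx2⟩ := exists_between h4
    have h5 : 0 ≤ 7 * ((d : ℝ) + 1) * ε := by positivity
    obtain ⟨C', hC', hF⟩ := euF_of_euL_quant hd hq (by linarith : q < x) hε (by linarith) hK hE
    exact absurd (csInf_le hbd ⟨by linarith, _, by positivity,
      tubes_of_euF (by omega) (by linarith) hC' hF⟩) (not_le.2 hx2)
  · intro h
    refine le_antisymm ?_ hlow
    by_contra hcon
    rw [not_le] at hcon
    obtain ⟨x, hx1, hx2⟩ := exists_between hcon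
    exact absurd (csInf_le hbd ⟨hx1.le, h x hx1⟩) (not_le.2 hx2)
  · intro γ K hγ hK hA
    by_contra hcon
    rw [not_le] at hcon
    obtain ⟨x, hx1, hx2⟩ := exists_between hcon
    obtain ⟨C', hC', hF⟩ := Pool.Agent.U530.PB.euF_of_avg hd hγ hK hA hx1
    have h5 : 0 ≤ 7 * ((d : ℝ) + 1) * (γ * (1 + 1 / (d : ℝ))) := by positivity
    exact absurd (csInf_le hbd ⟨by linarith, _, Real.rpow_pos_of_pos hC' _,
      tubes_of_euF (by omega) (by linarith) hC' hF⟩) (not_le.2 hx2)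

theorem kakeyaMax_ind (δ : ℝ) (A : Set (E (d + 1))) (e : E (d + 1)) :
    kakeyaMax δ (A.indicator 1) e = kmax δ (A.indicator 1) e := by
  have h : ∀ y : E (d + 1), ‖A.indicator (1 : E (d + 1) → ℝ) y‖ₑ =
      A.indicator (1 : E (d + 1) → ℝ≥0∞) y := by
    intro y
    by_cases hy : y ∈ A
    · rw [indicator_of_mem hy, indicator_of_mem hy]
      simp
    · rw [indicator_of_notMem hy, indicator_of_notMem hy]
      simp
  unfold kakeyaMax
  simp only [h]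
  rfl

theorem avgS_of_averages {γ C : ℝ} (h : Averages (d + 1) γ C) : AvgS d γ (max C 0) := by
  intro δ hδ hδ1 A hA hAf
  have h1 := h δ hδ hδ1 A hA hAf
  simp only [kakeyaMax_ind] at h1
  have e2 : ((d + 1 : ℕ) : ℝ) = (d : ℝ) + 1 := by push_cast; ring
  rw [e2] at h1
  refine h1.trans ?_
  gcongr ENNReal.ofReal ?_ * _
  gcongr
  exact le_max_left _ _

/-- The averaged estimate for sets follows from the strong type estimate. -/
theorem averages_of_strong {γ C : ℝ} (hd : 1 ≤ d) (h : Strong (d + 1) ((d : ℝ) + 1) γ C) :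
    ∃ C' : ℝ, 0 < C' ∧ Averages (d + 1) γ C' := by
  have hd0 : (0 : ℝ) < d := by exact_mod_cast hd
  have hn : (1 : ℝ) < (d : ℝ) + 1 := by linarith
  have hn0 : (0 : ℝ) < (d : ℝ) + 1 := by linarith
  have e2 : ((d + 1 : ℕ) : ℝ) = (d : ℝ) + 1 := by push_cast; ring
  have h1p : 0 ≤ 1 - 1 / ((d : ℝ) + 1) := by
    rw [sub_nonneg, div_le_one hn0]
    exact hn.le
  set M : ℝ := (sg d Set.univ ^ (1 - 1 / ((d : ℝ) + 1))).toReal with hM
  have hMt : sg d Set.univ ^ (1 - 1 / ((d : ℝ) + 1)) = ENNReal.ofReal M := by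
    rw [hM, ENNReal.ofReal_toReal]
    exact ENNReal.rpow_ne_top_of_nonneg h1p (measure_ne_top _ _)
  have hM0 : 0 ≤ M := ENNReal.toReal_nonneg
  refine ⟨max C 1 * (M + 1), by positivity, ?_⟩
  intro δ hδ hδ1 A hA hAf
  set f : E (d + 1) → ℝ := A.indicator 1 with hf
  have hmem : MemLp f (ENNReal.ofReal ((d : ℝ) + 1)) volume :=
    memLp_indicator_const _ hA (1 : ℝ) (Or.inr hAf)
  have h2 := h δ hδ hδ1 f hmem
  have hnorm : lpNorm ((d : ℝ) + 1) f = volume A ^ (1 / ((d : ℝ) + 1)) := by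
    unfold lpNorm
    have e3 : ∀ y, ‖f y‖ₑ ^ ((d : ℝ) + 1) = A.indicator (1 : E (d + 1) → ℝ≥0∞) y := by
      intro y
      by_cases hy : y ∈ A
      · rw [hf, indicator_of_mem hy, indicator_of_mem hy]
        simp
      · rw [hf, indicator_of_notMem hy, indicator_of_notMem hy]
        simp [hn0]
    simp only [e3]
    rw [lintegral_indicator_one hA]
  rw [hnorm] at h2
  have h3 : ∫⁻ e, kakeyaMax δ f e ∂surf (d + 1) ≤
      (∫⁻ e, kakeyaMax δ f e ^ ((d : ℝ) + 1) ∂surf (d + 1)) ^ (1 / ((d : ℝ) + 1)) *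
        sg d Set.univ ^ (1 - 1 / ((d : ℝ) + 1)) := by
    have h4 := Pool.Agent.Y254.EL.holder_set (sg d) Set.univ
      (fun e : sphere (0 : E (d + 1)) 1 => kakeyaMax δ f e) hn
    rw [Measure.restrict_univ] at h4
    exact h4
  rw [e2]
  calc ∫⁻ e, kakeyaMax δ f e ∂surf (d + 1)
      ≤ (ENNReal.ofReal (C * δ ^ (-γ)) * volume A ^ (1 / ((d : ℝ) + 1))) * ENNReal.ofReal M := by
        rw [← hMt]
        exact h3.trans (by gcongr)
    _ ≤ (ENNReal.ofReal (max C 1 * δ ^ (-γ)) * volume A ^ (1 / ((d : ℝ) + 1))) *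
          ENNReal.ofReal (M + 1) := by
        gcongr
        · exact le_max_left _ _
        · linarith
    _ = ENNReal.ofReal (max C 1 * (M + 1) * δ ^ (-γ)) * volume A ^ (1 / ((d : ℝ) + 1)) := by
        rw [mul_right_comm, ← ENNReal.ofReal_mul (by positivity)]
        congr 2
        ring

end proofs

/-- **The threshold for the loss in the Kakeya maximal estimates.** -/
theorem result (n : ℕ) (hn : 3 ≤ n) :
    -- (A) no loss for `p < (n + 2) / 2`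
    (∀ p : ℝ, 1 < p → p < ((n : ℝ) + 2) / 2 → NoLoss n p) ∧
    -- (B) one loss at the critical exponent can be removed, even one for averages of sets only
    (∀ γ C : ℝ, Strong n n γ C → ∃ C' : ℝ, 0 < C' ∧ Averages n γ C') ∧
    (∀ γ C : ℝ, 0 ≤ γ → Averages n γ C → ∀ p : ℝ, 1 < p →
      p < n * (1 + 7 * n * γ) / (1 + 7 * n ^ 2 * γ) → NoLoss n p) ∧
    -- (C) the threshold
    ∃ p₀ : ℝ, ((n : ℝ) + 2) / 2 ≤ p₀ ∧ p₀ ≤ n ∧
      (∀ p : ℝ, 1 < p → p < p₀ → NoLoss n p) ∧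
      (∀ ε : ℝ, 0 < ε → (∃ C : ℝ, 0 < C ∧ Strong n p₀ ((n : ℝ) / p₀ - 1 + ε) C) ∧
        ∃ C : ℝ, 0 < C ∧ Tubes n (p₀ / (p₀ - 1)) ε C) ∧
      (∀ p γ : ℝ, p₀ < p → p ≤ n → 0 ≤ γ → γ < (p - p₀) / (7 * n * p * (p₀ - 1)) →
        ∀ C : ℝ, ¬ Tubes n (p / (p - 1)) γ C) ∧
      (∀ p γ : ℝ, 1 < p → p ≤ n → 0 ≤ γ →
        ((n : ℝ) - p) + γ * p < ((n : ℝ) - p₀) / (7 * n * (p₀ - 1)) →
        ∀ C : ℝ, ¬ Strong n p ((n : ℝ) / p - 1 + γ) C) ∧
      (∀ γ : ℝ, 0 ≤ γ → 7 * n ^ 2 * γ * (p₀ - 1) < n - p₀ → ∀ C : ℝ, ¬ Averages n γ C) ∧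
      -- (D) Q1 in dimension `n`
      List.TFAE [p₀ = n,
        ∀ ε : ℝ, 0 < ε → ∃ C : ℝ, 0 < C ∧ Strong n n ε C,
        ∀ ε : ℝ, 0 < ε → ∃ C : ℝ, 0 < C ∧ Averages n ε C,
        ∀ ε : ℝ, 0 < ε → ∃ C : ℝ, 0 < C ∧ Tubes n ((n : ℝ) / ((n : ℝ) - 1)) ε C,
        ∀ p : ℝ, 1 < p → p < n → ∃ C : ℝ, 0 < C ∧ Strong n p ((n : ℝ) / p - 1) C,
        ∀ p : ℝ, 1 < p → p < n → ∃ C : ℝ, 0 < C ∧ Weak n p C,
        ∀ q : ℝ, (n : ℝ) / ((n : ℝ) - 1) < q → ∃ C : ℝ, 0 < C ∧ Tubes n q 0 C] := by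
  obtain ⟨d, rfl⟩ : ∃ d, n = d + 1 := ⟨n - 1, by omega⟩
  have hd : 2 ≤ d := by omega
  have hd1 : 1 ≤ d := by omega
  have hdR : (2 : ℝ) ≤ d := by exact_mod_cast hd
  have hd0 : (0 : ℝ) < d := by linarith
  have hinv : 0 < 1 / (d : ℝ) := by positivity
  have e1 : ((d + 1 : ℕ) : ℝ) / (((d + 1 : ℕ) : ℝ) - 1) = 1 + 1 / (d : ℝ) := by
    push_cast
    rw [show (d : ℝ) + 1 - 1 = d by ring]
    field_simp
  have e2 : ((d + 1 : ℕ) : ℝ) = (d : ℝ) + 1 := by push_cast; ring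
  obtain ⟨q₀, hlow, hup, h1, h2, h3, h4, h4'⟩ := thresh hd
  have hq₀ : 0 < q₀ - 1 := by linarith
  -- the dual exponent
  set p₀ : ℝ := q₀ / (q₀ - 1) with hp₀
  have hpq : p₀ - 1 = 1 / (q₀ - 1) := by rw [hp₀]; field_simp; ring
  have hp₀0 : 0 < p₀ - 1 := by rw [hpq]; positivity
  have hqp : q₀ - 1 = 1 / (p₀ - 1) := by rw [hpq]; field_simp
  have hp₀n : p₀ ≤ (d : ℝ) + 1 := by
    have h5 : 1 / (q₀ - 1) ≤ d := by
      rw [div_le_iff₀ hq₀]
      have h6 : 1 / (d : ℝ) ≤ q₀ - 1 := by linarith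
      calc (1 : ℝ) = d * (1 / d) := by field_simp
        _ ≤ d * (q₀ - 1) := by gcongr
    linarith
  have hp₀l : ((d : ℝ) + 1 + 2) / 2 ≤ p₀ := by
    have h5 : ((d : ℝ) + 1) / 2 ≤ 1 / (q₀ - 1) := by
      rw [le_div_iff₀ hq₀]
      have h6 : q₀ - 1 ≤ 2 / ((d : ℝ) + 1) := by linarith
      calc ((d : ℝ) + 1) / 2 * (q₀ - 1) ≤ ((d : ℝ) + 1) / 2 * (2 / ((d : ℝ) + 1)) := by gcongr
        _ = 1 := by field_simp
    linarith
  have hdual : ∀ p : ℝ, 1 < p → p / (p - 1) = 1 + 1 / (p - 1) := by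
    intro p hp
    have : 0 < p - 1 := by linarith
    field_simp
    ring
  -- the range without a loss
  have hN : ∀ p : ℝ, 1 < p → p < p₀ → NoLoss (d + 1) p := by
    intro p hp hpp
    have hp10 : 0 < p - 1 := by linarith
    obtain ⟨C, hC, hT⟩ := h1 (p / (p - 1)) (by
      rw [hdual p hp]
      have h5 : 1 / (p₀ - 1) < 1 / (p - 1) := one_div_lt_one_div_of_lt hp10 (by linarith)
      linarith)
    exact noLoss_of_tubes hd1 hp (by linarith) hC hT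
  -- the failure of the strong type estimates
  have hF : ∀ p γ : ℝ, 1 < p → p ≤ (d : ℝ) + 1 → 0 ≤ γ →
      ((d : ℝ) + 1 - p) + γ * p < ((d : ℝ) + 1 - p₀) / (7 * ((d : ℝ) + 1) * (p₀ - 1)) →
      ∀ C : ℝ, ¬ Strong (d + 1) p (((d : ℝ) + 1) / p - 1 + γ) C := by
    intro p γ hp hpn hγ hlt C hS
    have hp0 : 0 < p := by linarith
    have hn0 : (0 : ℝ) < (d : ℝ) + 1 := by positivity
    have hm : 0 < max C 1 := lt_of_lt_of_le one_pos (le_max_right _ _)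
    have hS' := strong_mono hm.le (le_max_left C 1) le_rfl hS
    obtain ⟨C', hC'⟩ : ∃ C' : ℝ, Strong (d + 1) ((d : ℝ) + 1)
        ((((d : ℝ) + 1 - p) + γ * p) / ((d : ℝ) + 1)) C' := by
      have e5 : (((d : ℝ) + 1) / p - 1 + γ) * p / ((d : ℝ) + 1) =
          (((d : ℝ) + 1 - p) + γ * p) / ((d : ℝ) + 1) := by
        field_simp
      rcases hpn.lt_or_eq with h5 | h5
      · refine ⟨max C 1 ^ (p / ((d : ℝ) + 1)), ?_⟩
        rw [← e5]
        exact strong_up hp0 h5 hm hS'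
      · refine ⟨max C 1, ?_⟩
        have e6 : (((d : ℝ) + 1) / p - 1 + γ) * p / ((d : ℝ) + 1) = ((d : ℝ) + 1) / p - 1 + γ := by
          rw [h5]
          field_simp
        rw [← e5, e6, h5]
        rw [h5] at hS'
        exact hS'
    obtain ⟨K, hK, hE⟩ := euL_of_strong hd1 (by
      have : 0 ≤ (d : ℝ) + 1 - p := by linarith
      positivity) hC'
    have hpos : 0 ≤ ((d : ℝ) + 1 - p) + γ * p := by
      have : 0 ≤ (d : ℝ) + 1 - p := by linarith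
      positivity
    have hp₀n' : p₀ < (d : ℝ) + 1 := by
      by_contra hcon
      rw [not_lt] at hcon
      have h6 : ((d : ℝ) + 1 - p₀) / (7 * ((d : ℝ) + 1) * (p₀ - 1)) ≤ 0 :=
        div_nonpos_of_nonpos_of_nonneg (by linarith) (by positivity)
      linarith
    have hdiff : q₀ - (1 + 1 / (d : ℝ)) = ((d : ℝ) + 1 - p₀) / ((p₀ - 1) * d) := by
      have h6 : q₀ = 1 + 1 / (p₀ - 1) := by linarith
      rw [h6]
      field_simp
      ring
    have hdpos : 0 < q₀ - (1 + 1 / (d : ℝ)) := by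
      rw [hdiff]
      have : 0 < (d : ℝ) + 1 - p₀ := by linarith
      positivity
    refine h3 (1 + 1 / (d : ℝ)) _ K le_rfl (by linarith) (by positivity) ?_ hK hE
    rw [hdiff]
    rw [lt_div_iff₀ (by positivity)] at hlt ⊢
    have e6 : 7 * ((d : ℝ) + 1) * ((((d : ℝ) + 1 - p) + γ * p) / ((d : ℝ) + 1) * ((d : ℝ) + 1) / d) *
        ((p₀ - 1) * d) = (((d : ℝ) + 1 - p) + γ * p) * (7 * ((d : ℝ) + 1) * (p₀ - 1)) := by
      field_simp
    rw [e6]
    exact hlt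
  -- the averages
  have hAvg : ∀ γ C : ℝ, 0 ≤ γ → Averages (d + 1) γ C →
      (d : ℝ) + 1 - p₀ ≤ 7 * ((d : ℝ) + 1) ^ 2 * γ * (p₀ - 1) := by
    intro γ C hγ hAv
    have h5 := h4' γ (max C 0) hγ (le_max_right _ _) (avgS_of_averages hAv)
    have hdiff : q₀ - (1 + 1 / (d : ℝ)) = ((d : ℝ) + 1 - p₀) / ((p₀ - 1) * d) := by
      have h6 : q₀ = 1 + 1 / (p₀ - 1) := by linarith
      rw [h6]
      field_simp
      ring
    have h6 : ((d : ℝ) + 1 - p₀) / ((p₀ - 1) * d) ≤ 7 * ((d : ℝ) + 1) * (γ * (1 + 1 / (d : ℝ))) := by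
      rw [← hdiff]
      linarith
    rw [div_le_iff₀ (by positivity)] at h6
    refine h6.trans (le_of_eq ?_)
    field_simp
  refine ⟨?_, ?_, ?_, p₀, ?_, ?_, hN, ?_, ?_, ?_, ?_, ?_⟩
  · intro p hp hpp
    rw [e2] at hpp
    exact hN p hp (by linarith)
  · intro γ C hS
    rw [e2] at hS
    exact averages_of_strong hd1 hS
  · intro γ C hγ hAv p hp hpp
    refine hN p hp (hpp.trans_le ?_)
    rw [e2]
    have h5 := hAvg γ C hγ hAv
    rw [div_le_iff₀ (by positivity)]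
    nlinarith
  · rw [e2]; exact hp₀l
  · rw [e2]; exact hp₀n
  · intro ε hε
    refine ⟨?_, ?_⟩
    · have hp₀p : 0 < p₀ := by linarith
      obtain ⟨p, hp1, hp2, hp3⟩ : ∃ p : ℝ, 1 < p ∧ p < p₀ ∧ p₀ - p ≤ ε * p₀ := by
        refine ⟨max ((1 + p₀) / 2) (p₀ - ε * p₀), ?_, ?_, ?_⟩
        · exact lt_of_lt_of_le (by linarith) (le_max_left _ _)
        · refine max_lt (by linarith) ?_
          have : 0 < ε * p₀ := by positivity
          linarith
        · have := le_max_right ((1 + p₀) / 2) (p₀ - ε * p₀)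
          linarith
      obtain ⟨⟨C, hC, hS⟩, -⟩ := hN p hp1 hp2
      have hS' := strong_up (by linarith) hp2 hC hS
      refine ⟨_, by positivity, strong_mono (by positivity) le_rfl ?_ hS'⟩
      rw [e2]
      have hp0 : 0 < p := by linarith
      have e5 : (((d : ℝ) + 1) / p - 1) * p / p₀ = ((d : ℝ) + 1) / p₀ - 1 + (p₀ - p) / p₀ := by
        field_simp
        ring
      rw [e5]
      have h5 : (p₀ - p) / p₀ ≤ ε := by rw [div_le_iff₀ hp₀p]; exact hp3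
      linarith
    · obtain ⟨C, hC, hT⟩ := h2 ε hε
      refine ⟨C, hC, ?_⟩
      rw [hdual p₀ (by linarith), ← hqp]
      have e5 : 1 + (q₀ - 1) = q₀ := by ring
      rw [e5]
      exact hT
  · intro p γ hpp hpn hγ hlt C hT
    rw [e2] at hpn hlt
    have hp10 : 0 < p - 1 := by linarith
    have hp0 : 0 < p := by linarith
    have hq0 : 0 < p / (p - 1) := by positivity
    obtain ⟨K, hK, hE⟩ := euL_of_tubes hd1 hq0 hT
    have h5 : 1 / (p - 1) < 1 / (p₀ - 1) := one_div_lt_one_div_of_lt hp₀0 (by linarith)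
    have h6 : 1 / (d : ℝ) ≤ 1 / (p - 1) := one_div_le_one_div_of_le hp10 (by linarith)
    refine h3 (p / (p - 1)) _ K ?_ ?_ (by positivity) ?_ hK hE
    · rw [hdual p (by linarith)]; linarith
    · rw [hdual p (by linarith)]; linarith
    · have h7 : q₀ - p / (p - 1) = (p - p₀) / ((p₀ - 1) * (p - 1)) := by
        have h8 : q₀ = 1 + 1 / (p₀ - 1) := by linarith
        rw [h8]
        field_simp
        ring
      rw [h7, lt_div_iff₀ (by positivity)]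
      rw [lt_div_iff₀ (by positivity)] at hlt
      have e6 : 7 * ((d : ℝ) + 1) * (γ * (p / (p - 1))) * ((p₀ - 1) * (p - 1)) =
          γ * (7 * ((d : ℝ) + 1) * p * (p₀ - 1)) := by
        field_simp
      rw [e6]
      exact hlt
  · intro p γ hp hpn hγ hlt C
    rw [e2] at hpn hlt ⊢
    exact hF p γ hp hpn hγ hlt C
  · intro γ hγ hlt C hAv
    rw [e2] at hlt
    have h5 := hAvg γ C hγ hAv
    linarith
  · have hm := main hd
    rw [e1, e2]
    have hA : p₀ = (d : ℝ) + 1 ↔ q₀ = 1 + 1 / (d : ℝ) := by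
      constructor
      · intro h5
        have : q₀ - 1 = 1 / (d : ℝ) := by rw [hqp, h5]; congr 1; ring
        linarith
      · intro h5
        have : p₀ - 1 = d := by rw [hpq, h5]; field_simp; ring
        linarith
    have hB : p₀ = (d : ℝ) + 1 ↔
        ∀ q : ℝ, 1 + 1 / (d : ℝ) < q → ∃ C : ℝ, 0 < C ∧ Tubes (d + 1) q 0 C := by
      constructor
      · intro h5 q hq
        rw [← hA.1 h5] at hq
        exact h1 q hq
      · intro h5
        exact hA.2 (h4 h5)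
    tfae_have 1 ↔ 7 := hB
    tfae_have 2 ↔ 4 := hm.out 0 1
    tfae_have 4 ↔ 5 := hm.out 1 2
    tfae_have 5 ↔ 6 := hm.out 2 3
    tfae_have 6 ↔ 7 := hm.out 3 4
    tfae_have 2 → 3 := by
      intro h5 ε hε
      obtain ⟨C, hC, hS⟩ := h5 ε hε
      exact averages_of_strong hd1 hS
    tfae_have 3 → 1 := by
      intro h5
      by_contra hne
      have hlt : p₀ < (d : ℝ) + 1 := lt_of_le_of_ne hp₀n hne
      have hpos : 0 < (d : ℝ) + 1 - p₀ := by linarith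
      obtain ⟨C, hC, hAv⟩ := h5 (((d : ℝ) + 1 - p₀) / (2 * (7 * ((d : ℝ) + 1) ^ 2 * (p₀ - 1))))
        (by positivity)
      have h6 := hAvg _ C (by positivity) hAv
      have h7 : 7 * ((d : ℝ) + 1) ^ 2 * (((d : ℝ) + 1 - p₀) / (2 * (7 * ((d : ℝ) + 1) ^ 2 * (p₀ - 1)))) *
          (p₀ - 1) = ((d : ℝ) + 1 - p₀) / 2 := by
        field_simp
      rw [h7] at h6
      linarith
    tfae_finish

end Pool.Agent.Results.MP_5168f5_an.NoLossThreshold
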