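import Pool.Agent.U527.Lc.Max

set_option autoImplicit false

/-!
# MP_5168f5: the Kakeya maximal function over the tubes that meet an arbitrary small set

`transMax δ Z f e` is the Kakeya maximal function `f^*_δ (e)` in which the supremum is restricted to the
tubes whose axis line meets the set `Z`; the point of `Z`, and where the tube lies on the line, are
arbitrary functions of the direction `e`.  Nothing is assumed about `Z` except that it is covered by `N`
balls of radius `δ` and that it lies in a `d`-dimensional affine subspace, `1 ≤ d ≤ n` (for `d = n` this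
is no condition).

The sum over the balls shows that the maximal inequality of the conjecture holds for these tubes with the
loss `N` (and powers of `log (1/δ)`).  We show that it holds with the loss `N^(1-1/d)`:

  `∫ (transMax δ Z f)^p ≤ C N^(1-1/d) (1 + log N)^4 (1 + log (1/δ))^(n+2) ∫ |f|^p`,   `p ≥ n ≥ 3`.

For `d = n` the loss is `N^(1-1/n)`, for sets in a plane it is `N^(1/2)`, and for sets on a line there is
only a logarithmic loss, whatever `N`.

Proof.  By the theorem of Welzl and Chazelle–Welzl on spanning paths with low crossing number (proved in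
`U527/Lc`, with a further logarithm) there is a polygon through the `N` centres which meets every
hyperplane in general position at most `C N^(1-1/d) (1 + log N)^2` times; for tubes that meet a curve the
`L^2` estimate of the library (`W767.Kc`: quadratic variation of the transform along the curve) loses
only the number of the intersections of the curve with hyperplanes.
-/

open MeasureTheory Set Metric
open scoped ENNReal

namespace Pool.Agent.Results.MP_5168f5_an.SmallTransversals

/-- The closed tube of length `1` and radius `δ` with centre `b` and axis direction `e`. -/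
def tube {n : ℕ} (δ : ℝ) (e b : EuclideanSpace ℝ (Fin n)) : Set (EuclideanSpace ℝ (Fin n)) :=
  {y | |inner ℝ (y - b) e| ≤ 1 / 2 ∧ ‖(y - b) - (inner ℝ (y - b) e : ℝ) • e‖ ≤ δ}

/-- Supremum of the averages of `|f|` over the `δ`-tubes with direction `e` whose axis line meets
the set `Z`. -/
noncomputable def transMax {n : ℕ} (δ : ℝ) (Z : Set (EuclideanSpace ℝ (Fin n)))
    (f : EuclideanSpace ℝ (Fin n) → ℝ) (e : EuclideanSpace ℝ (Fin n)) : ℝ≥0∞ :=
  ⨆ (z : EuclideanSpace ℝ (Fin n)) (_ : z ∈ Z) (t : ℝ),
    (volume (tube δ e (z + t • e)))⁻¹ * ∫⁻ y in tube δ e (z + t • e), ‖f y‖ₑ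

/-- **The Kakeya maximal inequality with the loss `N^(1-1/d)` for the tubes that meet a set which is
covered by `N` balls of radius `δ`.** -/
theorem result (n : ℕ) (hn : 3 ≤ n) : ∃ C : ℝ, 0 < C ∧
    ∀ (d N : ℕ) (V : AffineSubspace ℝ (EuclideanSpace ℝ (Fin n)))
      (Z : Set (EuclideanSpace ℝ (Fin n))) (δ p : ℝ) (f : EuclideanSpace ℝ (Fin n) → ℝ),
      1 ≤ d → Module.finrank ℝ V.direction ≤ d → Z ⊆ V → 0 < δ → δ < 1 →
      -- `Z` is covered by `N ≥ 1` balls of radius `δ`
      1 ≤ N → (∃ P : Finset (EuclideanSpace ℝ (Fin n)), P.card ≤ N ∧ Z ⊆ ⋃ y ∈ P, closedBall y δ) →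
      (n:ℝ) ≤ p → AEMeasurable f volume →
      ∫⁻ e : sphere (0 : EuclideanSpace ℝ (Fin n)) 1, transMax δ Z f e ^ p
          ∂(volume : Measure (EuclideanSpace ℝ (Fin n))).toSphere
        ≤ ENNReal.ofReal (C * (N : ℝ) ^ (1 - 1 / (d:ℝ)) * (1 + Real.log N) ^ 4
            * (1 + Real.log (1 / δ)) ^ (n + 2)) * ∫⁻ y, ‖f y‖ₑ ^ p := by
  obtain ⟨m, rfl⟩ : ∃ m, n = m + 1 := ⟨n - 1, by omega⟩
  obtain ⟨C, hC, h⟩ := Pool.Agent.U527.Lc.max_est m (by omega)
  refine ⟨C, hC, ?_⟩
  intro d N V Z δ p f hd hV hZV hδ hδ1 hN hP hp hf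
  rcases Z.eq_empty_or_nonempty with rfl | ⟨z₀, hz₀⟩
  · have hp0 : 0 < p := by
      have : (0:ℝ) < ((m + 1 : ℕ) : ℝ) := by positivity
      linarith
    have h0 : ∀ e : EuclideanSpace ℝ (Fin (m + 1)), transMax δ ∅ f e = 0 := by
      intro e
      unfold transMax
      simp
    simp only [h0, ENNReal.zero_rpow_of_pos hp0, lintegral_zero]
    exact zero_le
  obtain ⟨P, hPN, hPZ⟩ := hP
  have := h d V.direction z₀ Z N δ f p hd hV (fun z hz => by
    have := AffineSubspace.vsub_mem_direction (hZV hz) (hZV hz₀)
    simpa using this) hN ⟨P, hPN, fun z hz => by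
      obtain ⟨y, hy, hzy⟩ := mem_iUnion₂.1 (hPZ hz)
      exact ⟨y, hy, by simpa [dist_eq_norm] using hzy⟩⟩ hδ hδ1 hf hp
  exact this

end Pool.Agent.Results.MP_5168f5_an.SmallTransversals
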