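import Pool.Agent.TH426.Kt.Final

set_option autoImplicit false
set_option maxHeartbeats 1000000

/-!
# MP_5168f5: the Kakeya maximal estimate is stable under skew products

Work in `ℝ^n = ℝ^d × ℝ`, `n = d + 1`.  For `v` in the closed unit ball of `ℝ^d` the line number `v`
of the family given by `b : ℝ^d → ℝ^d` is `{(b v + s v, s) : s ∈ ℝ}`; its direction is `(v, 1)`.
`lineMax δ b f v` is the supremum of the averages of `|f|` over the `δ`-tubes of length one with axis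
on the line number `v`.  By measurable selection the Kakeya maximal conjecture is the estimate
`∫ (lineMax δ b f)^n ≤ C_ε δ^(-ε) ∫ |f|^n` for *all* measurable maps `b`; the estimates conjectured for
the exponents `p ≤ n` have the constants `C_ε δ^(-(n-p)-ε)`.

A *tower* is built from stages by two operations: countable decompositions of the set of directions
(with summable multiplicities), and *skew products*: for an orthogonal splitting
`ℝ^d = ℝ^{d1} × ℝ^{d2}` the first component of `b(v1, v2)` is `b1(v1)` for a tower `b1` of dimension `d1`,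
and the second one is `b2(v1)(v2)`, where for each `v1` the map `b2(v1)` is a tower of dimension `d2`;
its dependence on `v1` is completely arbitrary (measurable).  The exponents of the estimates are
`p1`, `p2` and `p1 + p2 - 1`, the multiplicities `M1`, `M2` and `M1 M2`.  So the critical exponents
`p1 = d1 + 1`, `p2 = d2 + 1` give the critical exponent `n = d1 + d2 + 1`.

1. *Stability.*  Fix a width `δ`.  If all stages satisfy the maximal estimate (from `L^p` to `L^(lp)`,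
   for a common ratio `l ≥ 1`) with the constants `c(d) M Λ^d μ^(d+1-p)`, then all towers satisfy it
   with the constants `C(d) M Λ^d μ^(d+1-p)`, where `C(d)` depends only on `d`, `l` and `c` (not on the
   tower, the number of its stages, `δ`, `Λ`, `μ`).  With `Λ = δ^(-ε)`, `μ = 1/δ` this is the shape of the
   conjectured estimates: the class of families of lines for which the Kakeya maximal conjecture
   holds is closed under skew products.
2. *Unconditional case.*  If the stages are arbitrary families of lines in the plane, families with at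
   most `M` lines through almost every point (given by a map that is Lipschitz on countably many
   pieces) and section-monotone families, then the maximal estimate holds for every tower at the
   critical exponent with a loss `(1 + log(1/δ))^(n-1)`.

In both cases the maps may moreover be perturbed by arbitrary (non-measurable) errors of size `δ`.
-/

open MeasureTheory Set ENNReal NNReal Metric

namespace Pool.Agent.Results.MP_5168f5_an.TowerFamilies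

/-- Euclidean space `ℝ^d`. -/
abbrev Vec (d : ℕ) : Type := EuclideanSpace ℝ (Fin d)

/-- Euclidean space `ℝ^{d+1}`, written as `ℝ^d × ℝ` with the Euclidean norm. -/
abbrev Space (d : ℕ) : Type := WithLp 2 (Vec d × ℝ)

/-- The unit vector `(v, 1)/√(1+|v|²)`. -/
noncomputable def dir {d : ℕ} (v : Vec d) : Space d :=
  (√(1 + ‖v‖ ^ 2))⁻¹ • WithLp.toLp 2 (v, (1:ℝ))

/-- The closed tube of length `1` and radius `δ` with centre `a` and axis direction `e`. -/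
def tube {d : ℕ} (δ : ℝ) (e a : Space d) : Set (Space d) :=
  {y | |inner ℝ (y - a) e| ≤ 1 / 2 ∧ ‖(y - a) - (inner ℝ (y - a) e : ℝ) • e‖ ≤ δ}

/-- The point of height `s` on the line `{(b v + s v, s)}`. -/
noncomputable def linePt {d : ℕ} (b : Vec d → Vec d) (v : Vec d) (s : ℝ) : Space d :=
  WithLp.toLp 2 (b v + s • v, s)

/-- Supremum of the averages of `|f|` over the `δ`-tubes with axis on the line number `v`. -/
noncomputable def lineMax {d : ℕ} (δ : ℝ) (b : Vec d → Vec d) (f : Space d → ℝ) (v : Vec d) : ℝ≥0∞ :=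
  ⨆ s : ℝ, (volume (tube δ (dir v) (linePt b v s)))⁻¹ *
    ∫⁻ y in tube δ (dir v) (linePt b v s), ‖f y‖ₑ

/-- The Kakeya maximal estimate from `L^p` to `L^(l p)` with the constant `C`, at the width `δ`, for the
lines of the family `b` with direction in `B` and for the functions living at heights in `T`. -/
def Est {d : ℕ} (δ : ℝ) (T : Set ℝ) (l p : ℝ) (C : ℝ≥0∞) (B : Set (Vec d)) (b : Vec d → Vec d) : Prop :=
  ∀ f : Space d → ℝ, Measurable f → (∀ (y : Vec d) (t : ℝ), t ∉ T → f (WithLp.toLp 2 (y, t)) = 0) →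
    ∫⁻ v in B, lineMax δ b f v ^ (l * p) ≤ C * (∫⁻ y, ‖f y‖ₑ ^ p) ^ l

/-- The two components of the vector `v` in the orthogonal splitting `Φ`. -/
noncomputable def split {d d1 d2 : ℕ} (Φ : Vec d ≃ₗᵢ[ℝ] WithLp 2 (Vec d1 × Vec d2)) (v : Vec d) :
    Vec d1 × Vec d2 := WithLp.ofLp (Φ v)

/-- The family `b` on `B` is the skew product of the family `b1` on `B1` and of the families `b2 v` on
`B2 v`, `v ∈ B1`, for the orthogonal splitting `Φ` of `ℝ^d`; all the data are measurable. -/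
def IsSkew {d d1 d2 : ℕ} (Φ : Vec d ≃ₗᵢ[ℝ] WithLp 2 (Vec d1 × Vec d2)) (B : Set (Vec d))
    (B1 : Set (Vec d1)) (B2 : Vec d1 → Set (Vec d2)) (b : Vec d → Vec d) (b1 : Vec d1 → Vec d1)
    (b2 : Vec d1 → Vec d2 → Vec d2) : Prop :=
  MeasurableSet {z : Vec d1 × Vec d2 | z.1 ∈ B1 ∧ z.2 ∈ B2 z.1} ∧
    Measurable (Function.uncurry b2) ∧ MeasurableSet B ∧ B ⊆ closedBall 0 1 ∧ Measurable b ∧
    ∀ v ∈ B, (split Φ v).1 ∈ B1 ∧ (split Φ v).2 ∈ B2 (split Φ v).1 ∧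
      split Φ (b v) = (b1 (split Φ v).1, b2 (split Φ v).1 (split Φ v).2)

/-- Towers over a class `𝒮` of stages; `p` is the exponent, `M` the multiplicity and `B` the set of
directions. -/
inductive Tower (𝒮 : (d : ℕ) → ℝ → ℝ≥0 → Set (Vec d) → (Vec d → Vec d) → Prop) :
    (d : ℕ) → ℝ → ℝ≥0 → Set (Vec d) → (Vec d → Vec d) → Prop
  | stage {d : ℕ} {p : ℝ} {M : ℝ≥0} {B : Set (Vec d)} {b : Vec d → Vec d} (hd : 1 ≤ d)
      (hp : 1 ≤ p) (hp' : p ≤ d + 1) (hB : MeasurableSet B) (hB1 : B ⊆ closedBall 0 1)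
      (hb : Measurable b) (h : 𝒮 d p M B b) : Tower 𝒮 d p M B b
  | pieces {d : ℕ} {p : ℝ} {M : ℝ≥0} {b : Vec d → Vec d} (m : ℕ → ℝ≥0) (B : ℕ → Set (Vec d))
      (h : ∀ j, Tower 𝒮 d p (m j) (B j) b) (hM : ∑' j, (m j : ℝ≥0∞) ≤ M) :
      Tower 𝒮 d p M (⋃ j, B j) b
  | skew {d d1 d2 : ℕ} {p1 p2 : ℝ} {M1 M2 : ℝ≥0} {B : Set (Vec d)} {B1 : Set (Vec d1)}
      {B2 : Vec d1 → Set (Vec d2)} {b : Vec d → Vec d} {b1 : Vec d1 → Vec d1}
      {b2 : Vec d1 → Vec d2 → Vec d2} (Φ : Vec d ≃ₗᵢ[ℝ] WithLp 2 (Vec d1 × Vec d2))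
      (hd1 : 1 ≤ d1) (hd2 : 1 ≤ d2) (hM2 : 0 < M2)
      (h1 : Tower 𝒮 d1 p1 M1 B1 b1) (h2 : ∀ v ∈ B1, Tower 𝒮 d2 p2 M2 (B2 v) (b2 v))
      (hs : IsSkew Φ B B1 B2 b b1 b2) : Tower 𝒮 d (p1 + p2 - 1) (M1 * M2) B b

/-- Up to a null set, `B` is covered by countably many measurable sets on which `b` is Lipschitz. -/
def LipPieces {d : ℕ} (B : Set (Vec d)) (b : Vec d → Vec d) : Prop :=
  ∃ P : ℕ → Set (Vec d), (∀ k, MeasurableSet (P k)) ∧ volume (B \ ⋃ k, P k) = 0 ∧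
    ∀ k, ∃ C : ℝ≥0, LipschitzOnWith C b (P k)

/-- For almost every height `t ∈ T`, almost every point of height `t` lies on at most `M` of the lines
with direction in `B`. -/
def OverlapLE {d : ℕ} (M : ℕ) (T : Set ℝ) (B : Set (Vec d)) (b : Vec d → Vec d) : Prop :=
  ∀ᵐ t : ℝ, t ∈ T → ∀ᵐ y : Vec d, {v | v ∈ B ∧ b v + t • v = y}.encard ≤ M

/-- For almost every height `t ∈ T` the section map `v ↦ b v + t v` becomes monotone on `B` after
composition with an invertible linear map `K` (which may depend on `t`). -/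
def SectionMonotone {d : ℕ} (T : Set ℝ) (B : Set (Vec d)) (b : Vec d → Vec d) : Prop :=
  ∀ᵐ t : ℝ, t ∈ T → ∃ K : Vec d →L[ℝ] Vec d, K.det ≠ 0 ∧
    ∀ v ∈ B, ∀ w ∈ B, 0 ≤ inner ℝ (K ((b v + t • v) - (b w + t • w))) (v - w)

/-- The rough stages, at the critical exponent: arbitrary families of lines in the plane; families with
at most `M` lines through almost every point, given by a map that is Lipschitz on countably many
pieces; section-monotone families. -/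
inductive RoughStage (T : Set ℝ) : (d : ℕ) → ℝ → ℝ≥0 → Set (Vec d) → (Vec d → Vec d) → Prop
  | planar {B : Set (Vec 1)} {b : Vec 1 → Vec 1} : RoughStage T 1 ((1 : ℕ) + 1) 1 B b
  | overlap {d M : ℕ} {B : Set (Vec d)} {b : Vec d → Vec d} (hM : 1 ≤ M)
      (hL : LipPieces B b) (hO : OverlapLE M T B b) : RoughStage T d (d + 1) M B b
  | monotone {d : ℕ} {B : Set (Vec d)} {b : Vec d → Vec d} (hS : SectionMonotone T B b) :
      RoughStage T d (d + 1) 1 B b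

open Pool.Agent.TH426.Kt (KTower RegBase BaseBd Rough LMb win spl Lg)

theorem est_iff {d : ℕ} {δ : ℝ} {T : Set ℝ} {l p : ℝ} {C : ℝ≥0∞} {B : Set (Vec d)}
    {b : Vec d → Vec d} : Est δ T l p C B b ↔ LMb δ T l p C B b := Iff.rfl

theorem toK {𝒮 𝓑 : (d : ℕ) → ℝ → ℝ≥0 → Set (Vec d) → (Vec d → Vec d) → Prop}
    (h0 : ∀ {d : ℕ} {p : ℝ} {M : ℝ≥0} {B : Set (Vec d)} {b : Vec d → Vec d}, 1 ≤ d → 1 ≤ p →
      p ≤ d + 1 → MeasurableSet B → B ⊆ closedBall 0 1 → Measurable b → 𝒮 d p M B b → 𝓑 d p M B b)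
    {d : ℕ} {p : ℝ} {M : ℝ≥0} {B : Set (Vec d)} {b : Vec d → Vec d} (h : Tower 𝒮 d p M B b) :
    KTower 𝓑 d p M B b := by
  induction h with
  | stage hd hp hp' hB hB1 hb h => exact KTower.base (h0 hd hp hp' hB hB1 hb h)
  | pieces m B h hM ih => exact KTower.union m B ih hM
  | @skew d d1 d2 p1 p2 M1 M2 B B1 B2 b b1 b2 Φ hd1 hd2 hM2 h1 h2 hs ih1 ih2 =>
    obtain ⟨hB2, hb2, hB, hB1, hb, hbB⟩ := hs
    exact KTower.skew Φ hd1 hd2 hM2 ih1 ih2 hB2 hb2 hB hB1 hb hbB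

/-- The class of stages in the form used by the closure theorem. -/
def Gen (δ : ℝ) (T : Set ℝ) (l : ℝ) (c : ℕ → ℝ≥0) (Λ μ : ℝ≥0)
    (𝒮 : (d : ℕ) → ℝ → ℝ≥0 → Set (Vec d) → (Vec d → Vec d) → Prop)
    (d : ℕ) (p : ℝ) (M : ℝ≥0) (B : Set (Vec d)) (b : Vec d → Vec d) : Prop :=
  (1 ≤ d ∧ 1 ≤ p ∧ p ≤ d + 1 ∧ MeasurableSet B ∧ B ⊆ closedBall 0 1 ∧ Measurable b) ∧
    Est δ T l p (c d * M * Λ ^ d * (μ : ℝ≥0∞) ^ ((d : ℝ) + 1 - p)) B b

/-- The constants of the stages for the windows. -/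
noncomputable def c1 (l : ℝ) (c : ℕ → ℝ≥0) (d : ℕ) : ℝ≥0∞ :=
  (2 ^ d) ^ (l * (d + 1)) * ((3 * 8 ^ d) ^ (l * (d + 1)) * (c d : ℝ≥0∞))

theorem c1_ne_top {l : ℝ} (hl : 0 ≤ l) (c : ℕ → ℝ≥0) (d : ℕ) : c1 l c d ≠ ∞ := by
  have h0 : (0 : ℝ) ≤ l * ((d : ℝ) + 1) := by positivity
  unfold c1
  apply ENNReal.mul_ne_top
  · exact ENNReal.rpow_ne_top_of_nonneg h0 (ENNReal.pow_ne_top (by simp))
  · apply ENNReal.mul_ne_top _ ENNReal.coe_ne_top
    exact ENNReal.rpow_ne_top_of_nonneg h0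
      (ENNReal.mul_ne_top (by simp) (ENNReal.pow_ne_top (by simp)))

theorem gen_reg (δ : ℝ) (T : Set ℝ) (l : ℝ) (c : ℕ → ℝ≥0) (Λ μ : ℝ≥0)
    (𝒮 : (d : ℕ) → ℝ → ℝ≥0 → Set (Vec d) → (Vec d → Vec d) → Prop) :
    RegBase (Gen δ T l c Λ μ 𝒮) :=
  ⟨fun h => ⟨h.1.2.2.2.1, h.1.2.2.2.2.1, h.1.2.2.2.2.2⟩, fun h => ⟨h.1.2.1, h.1.2.2.1⟩⟩

theorem gen_bd {δ : ℝ} (hδ : 0 < δ) (hδ1 : δ < 1) {T : Set ℝ} (hT : MeasurableSet T) {l : ℝ}
    (hl : 1 ≤ l) (c : ℕ → ℝ≥0) (Λ μ : ℝ≥0)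
    (𝒮 : (d : ℕ) → ℝ → ℝ≥0 → Set (Vec d) → (Vec d → Vec d) → Prop) (k : ℤ) :
    BaseBd (Gen δ T l c Λ μ 𝒮) (3 * δ) (win T k) l (c1 l c) Λ μ := by
  intro d p M B b hb
  obtain ⟨⟨hd, hp, hp', hB, hB1, hbm⟩, hE⟩ := hb
  have hlp : 1 ≤ l * p := one_le_mul_of_one_le_of_one_le hl hp
  refine (Pool.Agent.TH426.Kt.wb_of_lmb hδ hδ1 hT (by linarith) (by linarith) hlp hB hB1 hbm
    hE k).mono ?_ subset_rfl
  have hexp : l * p ≤ l * ((d : ℝ) + 1) := by gcongr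
  have h1 : ((2 : ℝ≥0∞) ^ d) ^ (l * p) ≤ (2 ^ d) ^ (l * ((d : ℝ) + 1)) :=
    ENNReal.rpow_le_rpow_of_exponent_le (one_le_pow₀ (by norm_num)) hexp
  have h2 : ((3 : ℝ≥0∞) * 8 ^ d) ^ (l * p) ≤ (3 * 8 ^ d) ^ (l * ((d : ℝ) + 1)) := by
    apply ENNReal.rpow_le_rpow_of_exponent_le _ hexp
    calc (1 : ℝ≥0∞) = 1 * 1 := by norm_num
      _ ≤ 3 * 8 ^ d := by
          gcongr
          · norm_num
          · exact one_le_pow₀ (by norm_num)
  calc (2 ^ d) ^ (l * p) * ((3 * 8 ^ d) ^ (l * p) *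
        (c d * M * Λ ^ d * (μ : ℝ≥0∞) ^ ((d : ℝ) + 1 - p)))
      ≤ (2 ^ d) ^ (l * ((d : ℝ) + 1)) * ((3 * 8 ^ d) ^ (l * ((d : ℝ) + 1)) *
        (c d * M * Λ ^ d * (μ : ℝ≥0∞) ^ ((d : ℝ) + 1 - p))) := by gcongr
    _ = c1 l c d * M * Λ ^ d * (μ : ℝ≥0∞) ^ ((d : ℝ) + 1 - p) := by
        unfold c1; ring

/-- **Towers of families of lines.** -/
theorem result :
    -- 1. stability of the maximal estimates
    (∀ (l : ℝ) (c : ℕ → ℝ≥0), 1 ≤ l → ∃ C : ℕ → ℝ≥0,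
      ∀ (δ : ℝ) (T : Set ℝ) (Λ μ : ℝ≥0)
        (𝒮 : (d : ℕ) → ℝ → ℝ≥0 → Set (Vec d) → (Vec d → Vec d) → Prop),
      0 < δ → δ < 1 → MeasurableSet T → 0 < Λ → 0 < μ →
      (∀ (d : ℕ) (p : ℝ) (M : ℝ≥0) (B : Set (Vec d)) (b : Vec d → Vec d), 𝒮 d p M B b →
        Est δ T l p (c d * M * Λ ^ d * (μ : ℝ≥0∞) ^ ((d : ℝ) + 1 - p)) B b) →
      ∀ (d : ℕ) (p : ℝ) (M : ℝ≥0) (B : Set (Vec d)) (b b' : Vec d → Vec d), Tower 𝒮 d p M B b →
        (∀ v ∈ B, ‖b' v - b v‖ ≤ δ) →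
        Est δ T l p (C d * M * Λ ^ d * (μ : ℝ≥0∞) ^ ((d : ℝ) + 1 - p)) B b') ∧
    -- 2. towers over the rough stages
    (∃ C : ℕ → ℝ≥0, ∀ (δ : ℝ) (T : Set ℝ) (d : ℕ) (M : ℝ≥0) (B : Set (Vec d))
      (b b' : Vec d → Vec d), 0 < δ → δ < 1 → MeasurableSet T →
      Tower (RoughStage T) d (d + 1) M B b →
      (∀ v ∈ B, ‖b' v - b v‖ ≤ δ) →
      Est δ T 1 (d + 1) (C d * M * ENNReal.ofReal ((1 + Real.log (1 / δ)) ^ d)) B b') := by
  refine ⟨?_, ?_⟩
  · intro l c hl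
    have hl0 : 0 ≤ l := by linarith
    set K0 : ℕ → ℝ≥0∞ := fun d => Pool.Agent.TH426.Kt.cb d ^ (l * ((d : ℝ) + 1)) *
      Pool.Agent.TH426.Kt.cc (c1 l c) (Pool.Agent.TH426.Kt.KK l) d with hK0
    have hK0t : ∀ d, K0 d ≠ ∞ := by
      intro d
      apply ENNReal.mul_ne_top
      · exact ENNReal.rpow_ne_top_of_nonneg (by positivity) (Pool.Agent.TH426.Kt.cb_ne_top d)
      · exact Pool.Agent.TH426.Kt.cc_ne_top (c1_ne_top hl0 c)
          (Pool.Agent.TH426.Kt.KK_ne_top hl0) d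
    refine ⟨fun d => (K0 d).toNNReal, ?_⟩
    intro δ T Λ μ 𝒮 hδ hδ1 hT hΛ hμ hS d p M B b b' hTw hbb
    have hK : KTower (Gen δ T l c Λ μ 𝒮) d p M B b :=
      toK (fun {d p M B b} hd hp hp' hB hB1 hb h => ⟨⟨hd, hp, hp', hB, hB1, hb⟩, hS d p M B b h⟩) hTw
    have hreg := gen_reg δ T l c Λ μ 𝒮
    rcases B.eq_empty_or_nonempty with hne | hne
    · rw [hne]
      intro f _ _
      simp
    obtain ⟨hp1, hp2⟩ := hK.expo hreg hne
    obtain ⟨hB, hB1, hbm⟩ := hK.meas hreg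
    have hΛ0 : (Λ : ℝ≥0∞) ≠ 0 := by exact_mod_cast hΛ.ne'
    have hμ0 : (μ : ℝ≥0∞) ≠ 0 := by exact_mod_cast hμ.ne'
    have hw : ∀ k : ℤ, Pool.Agent.TH426.Kt.Wb (3 * δ) (win T k) l p
        (Pool.Agent.TH426.Kt.cc (c1 l c) (Pool.Agent.TH426.Kt.KK l) d * M * (Λ : ℝ≥0∞) ^ d *
          (μ : ℝ≥0∞) ^ ((d : ℝ) + 1 - p)) B b := by
      intro k
      exact hK.bound hreg (r := 3 * δ) (by linarith) (J := win T k) (by linarith) hΛ0
        ENNReal.coe_ne_top hμ0 ENNReal.coe_ne_top (c1_ne_top hl0 c)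
        (gen_bd hδ hδ1 hT hl c Λ μ 𝒮 k)
    have key := Pool.Agent.TH426.Kt.LMb_of_Wb hδ hδ1 hT hl (by linarith) hB hB1 hbm hbb hw
    intro f hf hfT
    refine (key f hf hfT).trans (mul_le_mul_left ?_ _)
    rw [ENNReal.coe_toNNReal (hK0t d)]
    have h1 : Pool.Agent.TH426.Kt.cb d ^ (l * p) ≤
        Pool.Agent.TH426.Kt.cb d ^ (l * ((d : ℝ) + 1)) := by
      apply ENNReal.rpow_le_rpow_of_exponent_le
      · unfold Pool.Agent.TH426.Kt.cb
        calc (1 : ℝ≥0∞) = 1 * 1 := by norm_num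
          _ ≤ 52 * 16 ^ d := by
              gcongr
              · norm_num
              · exact one_le_pow₀ (by norm_num)
      · gcongr
    calc Pool.Agent.TH426.Kt.cb d ^ (l * p) *
          (Pool.Agent.TH426.Kt.cc (c1 l c) (Pool.Agent.TH426.Kt.KK l) d * M * (Λ : ℝ≥0∞) ^ d *
          (μ : ℝ≥0∞) ^ ((d : ℝ) + 1 - p))
        ≤ Pool.Agent.TH426.Kt.cb d ^ (l * ((d : ℝ) + 1)) *
          (Pool.Agent.TH426.Kt.cc (c1 l c) (Pool.Agent.TH426.Kt.KK l) d * M * (Λ : ℝ≥0∞) ^ d *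
          (μ : ℝ≥0∞) ^ ((d : ℝ) + 1 - p)) := by gcongr
      _ = _ := by rw [hK0]; ring
  · set K0 : ℕ → ℝ≥0∞ := fun d => Pool.Agent.TH426.Kt.cb d ^ ((d : ℝ) + 1) *
      Pool.Agent.TH426.Kt.cc Pool.Agent.TH426.Kt.c0 (Pool.Agent.TH426.Kt.KK 1) d with hK0
    have hK0t : ∀ d, K0 d ≠ ∞ := by
      intro d
      apply ENNReal.mul_ne_top
      · exact ENNReal.rpow_ne_top_of_nonneg (by positivity) (Pool.Agent.TH426.Kt.cb_ne_top d)
      · exact Pool.Agent.TH426.Kt.cc_ne_top Pool.Agent.TH426.Kt.c0_ne_top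
          (Pool.Agent.TH426.Kt.KK_ne_top zero_le_one) d
    refine ⟨fun d => (K0 d).toNNReal, ?_⟩
    intro δ T d M B b b' hδ hδ1 hT hTw hbb
    have hlog : 0 ≤ Real.log (1 / δ) := by
      apply Real.log_nonneg
      rw [one_le_div hδ]; exact hδ1.le
    have hL0 : Lg δ ≠ 0 := by
      unfold Pool.Agent.TH426.Kt.Lg
      simp only [ne_eq, ENNReal.ofReal_eq_zero, not_le]
      linarith
    have hK : KTower (Rough T) d (d + 1) M B b := by
      refine toK (fun {d p M B b} hd hp hp' hB hB1 hb h => ?_) hTw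
      cases h with
      | planar => exact Rough.planar hB hB1 hb
      | overlap hM hL hO => exact Rough.overlap hd hM hB hB1 hb hL hO
      | monotone hS => exact Rough.monotone hd hB hB1 hb hS
    have key := Pool.Agent.TH426.Kt.tower_lmb (Pool.Agent.TH426.Kt.rough_reg T) hδ hδ1 hT
      Pool.Agent.TH426.Kt.c0_ne_top hL0 ENNReal.ofReal_ne_top
      (fun k => Pool.Agent.TH426.Kt.rough_bd hT hδ hδ1 k) hK hbb
    rw [est_iff, ENNReal.coe_toNNReal (hK0t d), ENNReal.ofReal_pow (by linarith)]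
    exact key

end Pool.Agent.Results.MP_5168f5_an.TowerFamilies
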